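import Pool.Agent.P.MP_7badbe_co.Sp.C

set_option autoImplicit false
set_option linter.unusedSectionVars false

open Finset Filter Topology
open scoped BigOperators

namespace Pool.Agent.P.MP_7badbe_co

variable {V : Type} [Fintype V] [Nonempty V]

noncomputable def rho1 (D : ℝ) : ℝ := max (max (1 - 12 / 25 * D) (3 / 4 - 6 / 25 * D)) 0

/-- acceptance probability of the planted process -/
noncomputable def rhoG (j : ℕ) (q : ℝ) (e : ℕ) (L : Multiset V → Prop) (n : ℕ)
    (T : Multiset V) (x : V) : ℝ :=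
  if 0 < rel j (gL L) T x then 0 else rho1 (jump j q e (gL L) n T x)

lemma rho1_nonneg (D : ℝ) : 0 ≤ rho1 D := le_max_right _ _

lemma rho1_le_one {D : ℝ} (hD : 0 ≤ D) : rho1 D ≤ 1 := by
  refine max_le (max_le ?_ ?_) zero_le_one <;> linarith

lemma rho1_a (D : ℝ) : 1 - rho1 D ≤ 12 / 25 * D := by
  have h : 1 - 12 / 25 * D ≤ rho1 D := (le_max_left _ _).trans (le_max_left _ _)
  linarith

lemma rho1_b (D : ℝ) : 1 - rho1 D ≤ 1 / 4 + 6 / 25 * D := by
  have h : 3 / 4 - 6 / 25 * D ≤ rho1 D := (le_max_right _ _).trans (le_max_left _ _)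
  linarith

lemma rho1_exp : Real.exp (43 / 16) ≤ 61 / 4 := by
  refine le_of_pow_le_pow_left₀ (n := 16) (by norm_num) (by norm_num) ?_
  have h1 : Real.exp (43 / 16) ^ 16 = Real.exp 1 ^ 43 := by
    rw [← Real.exp_nat_mul, ← Real.exp_nat_mul]
    congr 1
    norm_num
  rw [h1]
  exact (pow_le_pow_left₀ (Real.exp_pos 1).le Real.exp_one_lt_d9.le 43).trans (by norm_num)

lemma rho1_main {D y : ℝ} (hD : 0 ≤ D) (h1 : 12 / 25 * D ≤ y) (h2 : y ≤ 3 / 2 * D) :
    rho1 D ^ 2 * Real.exp y + 1 ≤ 2 * rho1 D + y := by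
  obtain ⟨x, hx⟩ : ∃ x, x = 6 / 25 * D := ⟨_, rfl⟩
  have hx0 : 0 ≤ x := by rw [hx]; positivity
  suffices h : rho1 D ^ 2 * Real.exp (2 * x) ≤ 2 * rho1 D - 1 + 1 * (2 * x) ∧
      rho1 D ^ 2 * Real.exp (25 / 4 * x) ≤ 2 * rho1 D - 1 + 1 * (25 / 4 * x) by
    have := Rho_chord (x := y) (by linarith) (by linarith) (sq_nonneg _) h.1 h.2
    linarith
  rcases le_total x (1 / 4) with hx1 | hx1
  · have e : rho1 D = 1 - 2 * x := by
      rw [rho1, max_eq_left (a := 1 - 12 / 25 * D) (by linarith), max_eq_left (by linarith)]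
      linarith
    rw [e]
    constructor
    · have a1 := Rho_one_sub (2 * x)
      have a2 := mul_le_mul_of_nonneg_left a1 (show 0 ≤ 1 - 2 * x by linarith)
      nlinarith
    · have a1 := Real.exp_bound' (x := 25 / 8 * x) (by linarith) (by linarith) (n := 3)
        (by norm_num)
      simp only [Finset.sum_range_succ, Finset.sum_range_zero, Nat.factorial] at a1
      norm_num at a1
      have a2 := mul_le_mul_of_nonneg_left a1 (show 0 ≤ 1 - 2 * x by linarith)
      have p2 : 0 ≤ x ^ 2 := sq_nonneg x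
      have p3 : 0 ≤ x ^ 3 := by positivity
      have p4 : 0 ≤ x ^ 4 := by positivity
      have a3 : (1 - 2 * x) * Real.exp (25 / 8 * x) ≤ 1 + 9 / 8 * x - 4 / 3 * x ^ 2 := by
        nlinarith
      have a4 : 0 ≤ (1 - 2 * x) * Real.exp (25 / 8 * x) :=
        mul_nonneg (by linarith) (Real.exp_pos _).le
      have a5 := pow_le_pow_left₀ a4 a3 2
      have e2 : (1 - 2 * x) ^ 2 * Real.exp (25 / 4 * x)
          = ((1 - 2 * x) * Real.exp (25 / 8 * x)) ^ 2 := by
        rw [mul_pow, ← Real.exp_nat_mul]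
        congr 2
        push_cast
        ring
      rw [e2]
      have p5 : x ^ 4 ≤ x ^ 3 := pow_le_pow_of_le_one hx0 (by linarith) (by norm_num)
      nlinarith
  · rcases le_total x (3 / 4) with hx3 | hx3
    · have e : rho1 D = 3 / 4 - x := by
        rw [rho1, max_eq_right (b := 3 / 4 - 6 / 25 * D) (by linarith), max_eq_left (by linarith)]
        linarith
      rw [e]
      constructor
      · have a1 := Rho_one_sub x
        have a0 := Real.exp_pos x
        have a2 : (3 / 4 - x) * Real.exp x ≤ 2 / 3 := by nlinarith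
        have a4 : 0 ≤ (3 / 4 - x) * Real.exp x := mul_nonneg (by linarith) a0.le
        have a5 := pow_le_pow_left₀ a4 a2 2
        have e2 : (3 / 4 - x) ^ 2 * Real.exp (2 * x) = ((3 / 4 - x) * Real.exp x) ^ 2 := by
          rw [mul_pow, ← Real.exp_nat_mul]
          congr 2
        rw [e2]
        linarith
      · have a1 := Rho_sq (t := 25 / 8 * x - 43 / 32) (s := 43 / 16) (by linarith)
        have e1 : 2 * (25 / 8 * x - 43 / 32) + 43 / 16 = 25 / 4 * x := by ring
        rw [e1] at a1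
        have e2 : (3 / 4 - x) ^ 2 * Real.exp (25 / 4 * x)
            = 64 / 625 * ((1 - (25 / 8 * x - 43 / 32)) ^ 2 * Real.exp (25 / 4 * x)) := by ring
        rw [e2]
        linarith [rho1_exp]
    · have e : rho1 D = 0 := max_eq_right (max_le (by linarith) (by linarith))
      rw [e]
      constructor <;> nlinarith

lemma rho1_pair {D D' y : ℝ} (hD : 0 ≤ D) (hD' : 0 ≤ D') (h1 : 6 / 25 * (D + D') ≤ y)
    (h2 : y ≤ 3 / 4 * (D + D')) :
    rho1 D * rho1 D' * Real.exp y + 1 ≤ rho1 D + rho1 D' + y := by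
  obtain ⟨c, c1, c2, hc⟩ : ∃ c : ℝ, 6 / 25 ≤ c ∧ c ≤ 3 / 4 ∧ y = c * D + c * D' := by
    rcases (add_nonneg hD hD').eq_or_lt with h | h
    · refine ⟨1 / 2, by norm_num, by norm_num, ?_⟩
      rw [← h] at h1 h2
      linarith
    · refine ⟨y / (D + D'), ?_, ?_, ?_⟩
      · rwa [le_div_iff₀ h]
      · rwa [div_le_iff₀ h]
      · field_simp
  have m1 := rho1_main (y := c * D + c * D) hD (by nlinarith) (by nlinarith)
  have m2 := rho1_main (y := c * D' + c * D') hD' (by nlinarith) (by nlinarith)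
  rw [Real.exp_add] at m1 m2
  rw [hc, Real.exp_add]
  nlinarith [sq_nonneg (rho1 D * Real.exp (c * D) - rho1 D' * Real.exp (c * D'))]

variable {j e : ℕ} {q : ℝ} {L : Multiset V → Prop}

lemma rhoG_mem (hq : 0 ≤ q) (n : ℕ) (T : Multiset V) (x : V) :
    0 ≤ rhoG j q e L n T x ∧ rhoG j q e L n T x ≤ 1 := by
  unfold rhoG
  split_ifs
  · exact ⟨le_rfl, zero_le_one⟩
  · exact ⟨rho1_nonneg _, rho1_le_one (jump_nonneg hq (Nu_gL_nonneg L) n T x)⟩

lemma one_sub_rhoG (hq : 0 ≤ q) (n : ℕ) (T : Multiset V) (x : V) :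
    1 - rhoG j q e L n T x ≤ jump j q e (gL L) n T x + rel j (gL L) T x := by
  have h1 := jump_nonneg (j := j) (e := e) hq (Nu_gL_nonneg L) n T x
  have h2 := rel_nonneg (j := j) (Nu_gL_nonneg L) T x
  unfold rhoG
  split_ifs with h
  · have := (rel_gL_pos h).1
    linarith
  · have := rho1_a (jump j q e (gL L) n T x)
    linarith

lemma indT_stepG (hj : 1 ≤ j) {n : ℕ} {T : Multiset V} {x : V} (hT : IndT j L T)
    (h : rhoG j q e L n T x ≠ 0) : IndT j L (x ::ₘ T) := by
  intro J hJ hc hL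
  rcases Nu_le_cons hJ with h1 | ⟨w, hw, rfl⟩
  · exact hT J h1 hc hL
  · have h2 : w.card = j - 1 := by
      rw [Multiset.card_cons] at hc
      omega
    have h3 : gL L w x ≤ rel j (gL L) T x :=
      le_SS (F := fun ω => gL L ω x) (fun ω => Nu_gL_nonneg L ω x) hw h2
    rw [gL, ind_pos hL] at h3
    exact h (if_pos (by linarith))

/-- the number of accepted points is close to its null mean -/
theorem count_devG (hj : 1 ≤ j) (h0 : 0 ≤ q) (h1 : q < 1) (n : ℕ) :
    nu1 q (rhoG j q e L) n 0 (fun T => |n * q - T.card|)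
      ≤ √(n * q) + j * (((n + e).choose j : ℝ) * q ^ j * Ex j (fun J => ind (L J))) := by
  have hρ := rhoG_mem (j := j) (e := e) (L := L) h0
  have key := nu1_le h0 h1 hρ
    (fun m T => √((n * q - m * q - T.card) ^ 2 + m * q) + PotW j q e (gL L) m T) (by
      intro m T
      have h2 := PotW_step (e := e) hj h0 (Nu_gL_nonneg L) m T (rhoG j q e L m T) (hρ m T)
      set a := 𝔼 x, (1 - rhoG j q e L m T x) with ha
      have ha0 : 0 ≤ a := expect_nonneg fun x _ => by linarith [(hρ m T x).2]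
      have ha1 : a ≤ 𝔼 x, (jump j q e (gL L) m T x + rel j (gL L) T x) :=
        expect_le_expect fun x _ => one_sub_rhoG h0 m T x
      have ha2 : 𝔼 x, rhoG j q e L m T x = 1 - a := by
        rw [ha, expect_sub_distrib, expect_const univ_nonempty]
        ring
      have h3 := Nu_real (D := n * q - (m + 1) * q - T.card) (c := m * q) h0 h1.le ha0
        (by positivity)
      have e1 : (n * q - (m + 1) * q - T.card + q : ℝ) - 1
          = n * q - m * q - (T.card + 1) := by ring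
      have e2 : (n * q - (m + 1) * q - T.card + q : ℝ) = n * q - m * q - T.card := by ring
      have e3 : (m * q + q : ℝ) = (m + 1) * q := by ring
      rw [e1, e2, e3] at h3
      simp only [Multiset.card_cons, Nat.cast_add, Nat.cast_one, mul_add _ (√_),
        expect_add_distrib, ← expect_mul, ha2]
      have h4 := mul_le_mul_of_nonneg_left ha1 h0
      linarith) n 0
  refine le_trans (nu1_mono h0 h1 hρ (fun _ => True) (fun _ _ _ _ _ => trivial) n trivial
    fun W _ => ?_) (key.trans (le_of_eq ?_))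
  · have := PotW_nonneg (j := j) (e := e) h0 (Nu_gL_nonneg L) 0 W
    simp only [Nat.cast_zero, zero_mul, sub_zero, add_zero, Real.sqrt_sq_eq_abs]
    linarith
  · rw [PotW_nil hj, GG_gL L (show (0 : Multiset V).card < j from hj)]
    simp

/-- the potential is a supermartingale of the planted process -/
theorem pot_mean (hj : 1 ≤ j) (h0 : 0 ≤ q) (h1 : q < 1) (n : ℕ) :
    nu1 q (rhoG j q e L) n 0 (Pot j q e (gL L) 0)
      ≤ ((n + e).choose j : ℝ) * q ^ j * Ex j (fun J => ind (L J)) := by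
  have hρ := rhoG_mem (j := j) (e := e) (L := L) h0
  have key := nu1_le h0 h1 hρ (fun m T => Pot j q e (gL L) m T) (by
    intro m T
    have h2 : 𝔼 x, rhoG j q e L m T x * Pot j q e (gL L) m (x ::ₘ T)
        ≤ (𝔼 x, rhoG j q e L m T x) * Pot j q e (gL L) m T
          + 𝔼 x, (jump j q e (gL L) m T x + rel j (gL L) T x) := by
      rw [expect_mul, ← expect_add_distrib]
      refine expect_le_expect fun x _ => ?_
      rw [Pot_cons hj]
      have a1 := jump_nonneg (j := j) (e := e) h0 (Nu_gL_nonneg L) m T x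
      have a2 := rel_nonneg (j := j) (Nu_gL_nonneg L) T x
      nlinarith [(hρ m T x).2]
    rw [Pot_succ hj, expect_sub_distrib, expect_const univ_nonempty]
    have h3 := mul_le_mul_of_nonneg_left h2 h0
    nlinarith) n 0
  refine key.trans (le_of_eq ?_)
  rw [Pot_nil hj, GG_gL L (show (0 : Multiset V).card < j from hj)]
  simp

noncomputable def PsiG (j : ℕ) (q : ℝ) (e m : ℕ) (H : ℝ) (L : Multiset V → Prop)
    (W : Multiset V) : ℝ := ind (m ≤ W.card ∧ Pot j q e (gL L) 0 W ≤ H)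

lemma nuG_mono {n : ℕ} (h0 : 0 ≤ q) (h1 : q < 1) {F G : Multiset V → ℝ} (h : ∀ W, F W ≤ G W) :
    nu1 q (rhoG j q e L) n 0 F ≤ nu1 q (rhoG j q e L) n 0 G :=
  nu1_mono h0 h1 (rhoG_mem h0) (fun _ => True) (fun _ _ _ _ _ => trivial) n trivial
    (fun W _ => h W)

lemma goodG {m n : ℕ} {H d : ℝ} (hj : 1 ≤ j) (h0 : 0 ≤ q) (h1 : q < 1) (hm : (m : ℝ) < n * q)
    (hH : 0 < H) (hd : Ex j (fun J => ind (L J)) ≤ d)
    (c1 : 8 * (√(n * q) + j * (((n + e).choose j : ℝ) * q ^ j * d)) ≤ n * q - m)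
    (c2 : 8 * (((n + e).choose j : ℝ) * q ^ j * d) ≤ H) :
    3 / 4 ≤ nu1 q (rhoG j q e L) n 0 (PsiG j q e m H L) := by
  have hh : 0 ≤ ((n + e).choose j : ℝ) * q ^ j := by positivity
  have hd' := mul_le_mul_of_nonneg_left hd hh
  have a1 := count_devG (V := V) (e := e) (L := L) hj h0 h1 n
  have a2 := pot_mean (V := V) (e := e) (L := L) hj h0 h1 n
  have hm' : 0 < n * q - m := by linarith
  have a3 : nu1 q (rhoG j q e L) n 0 (fun _ => 1) ≤ nu1 q (rhoG j q e L) n 0 (fun W =>
      PsiG j q e m H L W + ((n * q - m)⁻¹ * |n * q - W.card| + H⁻¹ * Pot j q e (gL L) 0 W)) := by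
    refine nuG_mono h0 h1 fun W => ?_
    have b1 : 0 ≤ (n * q - m)⁻¹ * |n * q - W.card| := by positivity
    have b2 : 0 ≤ H⁻¹ * Pot j q e (gL L) 0 W :=
      mul_nonneg (by positivity) (Pot_nonneg h0 (Nu_gL_nonneg L) _ _)
    have b3 : 0 ≤ PsiG j q e m H L W := ind_nonneg _
    by_cases k1 : m ≤ W.card
    · by_cases k2 : Pot j q e (gL L) 0 W ≤ H
      · have : PsiG j q e m H L W = 1 := ind_pos ⟨k1, k2⟩
        linarith
      · have : 1 ≤ H⁻¹ * Pot j q e (gL L) 0 W := by
          rw [← div_eq_inv_mul, le_div_iff₀ hH]; linarith [not_le.1 k2]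
        linarith
    · have k3 : (W.card : ℝ) ≤ m := by exact_mod_cast (not_le.1 k1).le
      have : 1 ≤ (n * q - m)⁻¹ * |n * q - W.card| := by
        rw [← div_eq_inv_mul, le_div_iff₀ hm']; linarith [le_abs_self (n * q - W.card)]
      linarith
  rw [nu1_const h1, nu1_add, nu1_add, nu1_mul, nu1_mul] at a3
  have hj0 : (0 : ℝ) ≤ j := Nat.cast_nonneg _
  have a4 : (n * q - m)⁻¹ * nu1 q (rhoG j q e L) n 0 (fun W => |n * q - W.card|) ≤ 1 / 8 := by
    rw [← div_eq_inv_mul, div_le_iff₀ hm']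
    nlinarith [mul_le_mul_of_nonneg_left hd' hj0]
  have a5 : H⁻¹ * nu1 q (rhoG j q e L) n 0 (Pot j q e (gL L) 0) ≤ 1 / 8 := by
    rw [← div_eq_inv_mul, div_le_iff₀ hH]
    linarith
  have a6 : nu1 q (rhoG j q e L) n 0 (fun W => PsiG j q e m H L W)
      = nu1 q (rhoG j q e L) n 0 (PsiG j q e m H L) := rfl
  have a7 : nu1 q (rhoG j q e L) n 0 (fun W => Pot j q e (gL L) 0 W)
      = nu1 q (rhoG j q e L) n 0 (Pot j q e (gL L) 0) := rfl
  linarith

end Pool.Agent.P.MP_7badbe_co
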