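import Pool.Agent.P.MP_7badbe_co.Gr.A

set_option autoImplicit false
set_option linter.unusedSectionVars false

open Finset Filter Topology
open scoped BigOperators

namespace Pool.Agent.P.MP_7badbe_co

variable {V : Type} [Fintype V] [Nonempty V]

/-- mean number of new edges in `m` more steps -/
noncomputable def PP (j : ℕ) (q : ℝ) (L : Multiset V → Prop) (m : ℕ) (T : Multiset V) : ℝ :=
  Pot j q 0 (gL L) m T

noncomputable def JJ (j : ℕ) (q : ℝ) (L : Multiset V → Prop) (m : ℕ) (T : Multiset V) (x : V) :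
    ℝ := jump j q 0 (gL L) m T x

noncomputable def chi (H h : ℝ) : ℝ := max 0 (1 - Real.log (max h H / H) / 50)

/-- rate of the points that close an edge of both links -/
noncomputable def RR (j : ℕ) (q : ℝ) (e : ℕ) (H : ℝ) (L L' : Multiset V → Prop)
    (W : Multiset V) : ℝ :=
  q * 𝔼 u, ind (0 < rel j (gL L) W u) * ind (0 < rel j (gL L') W u) * chi H (PP j q L' e W)

/-- the cross potential -/
noncomputable def XX (j : ℕ) (q : ℝ) (e : ℕ) (H : ℝ) (L L' : Multiset V → Prop) (n : ℕ)
    (T : Multiset V) : ℝ :=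
  ∑ t ∈ range n, En q t T (RR j q e H L L')

lemma chi_nonneg (H h : ℝ) : 0 ≤ chi H h := le_max_left _ _

lemma chi_of_le {H h : ℝ} (hH : 0 < H) (hh : h ≤ H) : chi H h = 1 := by
  rw [chi, max_eq_right hh, div_self hH.ne', Real.log_one]
  norm_num

lemma chi_anti {H h h' : ℝ} (hH : 0 < H) (hh : h ≤ h') : chi H h' ≤ chi H h := by
  have h1 : 0 < max h H := lt_max_of_lt_right hH
  have h2 : Real.log (max h H / H) ≤ Real.log (max h' H / H) :=
    Real.log_le_log (by positivity) (by gcongr)
  exact max_le_max le_rfl (by linarith)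

lemma chi_le_one {H : ℝ} (hH : 0 < H) (h : ℝ) : chi H h ≤ 1 := by
  rcases le_total h H with h1 | h1
  · exact (chi_of_le hH h1).le
  · exact (chi_anti hH h1).trans (chi_of_le hH le_rfl).le

lemma chi_lip {H h h' : ℝ} (hH : 0 < H) (hh : h ≤ h') :
    h * (chi H h - chi H h') ≤ (h' - h) / 50 := by
  have h1 : 0 < max h H := lt_max_of_lt_right hH
  have h1' : 0 < max h' H := lt_max_of_lt_right hH
  have h2 : Real.log (max h H / H) ≤ Real.log (max h' H / H) :=
    Real.log_le_log (by positivity) (by gcongr)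
  have h3 : chi H h - chi H h'
      ≤ (Real.log (max h' H / H) - Real.log (max h H / H)) / 50 := by
    have a1 : 1 - Real.log (max h' H / H) / 50 ≤ chi H h' := le_max_right _ _
    have a2 := chi_nonneg H h'
    rw [sub_le_iff_le_add]
    exact max_le (by linarith) (by linarith)
  have h4 : Real.log (max h' H / H) - Real.log (max h H / H) ≤ max h' H / max h H - 1 := by
    rw [← Real.log_div (by positivity) (by positivity), div_div_div_cancel_right₀ hH.ne']
    exact Real.log_le_sub_one_of_pos (by positivity)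
  have h5 : max h' H - max h H ≤ h' - h := by
    rcases le_total h' H with a | a
    · rw [max_eq_right a, max_eq_right (hh.trans a)]; linarith
    · rw [max_eq_left a]; linarith [le_max_left h H]
  have h6 : max h H * (max h' H / max h H - 1) = max h' H - max h H := by field_simp
  have h7 := sub_nonneg.2 (chi_anti hH hh)
  have h8 := mul_le_mul_of_nonneg_right (le_max_left h H) h7
  have h9 := mul_le_mul_of_nonneg_left (h3.trans (div_le_div_of_nonneg_right h4 (by norm_num)))
    h1.le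
  rw [← mul_div_assoc, h6] at h9
  linarith

lemma chi_le_ind {H : ℝ} (hH : 0 < H) (h : ℝ) : chi H h ≤ ind (h ≤ Real.exp 50 * H) := by
  by_cases a : h ≤ Real.exp 50 * H
  · rw [ind_pos a]; exact chi_le_one hH h
  · rw [ind_neg a]
    refine max_le le_rfl ?_
    have h1 : Real.exp 50 ≤ max h H / H := by
      rw [le_div_iff₀ hH]; linarith [le_max_left h H, not_le.1 a]
    have h2 := Real.log_le_log (Real.exp_pos _) h1
    rw [Real.log_exp] at h2
    linarith

variable {j e : ℕ} {q H : ℝ} {L L' : Multiset V → Prop}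

omit [Nonempty V] in
lemma Pot_eq_PP (n : ℕ) (T : Multiset V) : Pot j q e (gL L) n T = PP j q L (n + e) T := rfl

omit [Nonempty V] in
lemma jump_eq_JJ (n : ℕ) (T : Multiset V) (x : V) :
    jump j q e (gL L) n T x = JJ j q L (n + e) T x := rfl

omit [Nonempty V] in
lemma PP_zero (T : Multiset V) : PP j q L 0 T = 0 := by
  unfold PP Pot
  refine sum_eq_zero fun s hs => ?_
  rw [Nat.choose_eq_zero_of_lt (by have := mem_range.1 hs; omega)]
  simp

lemma PP_cons (hj : 1 ≤ j) (m : ℕ) (T : Multiset V) (x : V) :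
    PP j q L m (x ::ₘ T) = PP j q L m T + JJ j q L m T x := Pot_cons hj m T x

lemma PP_succ (hj : 1 ≤ j) (m : ℕ) (T : Multiset V) :
    PP j q L (m + 1) T = PP j q L m T + q * 𝔼 x, (JJ j q L m T x + rel j (gL L) T x) :=
  Pot_succ hj m T

lemma JJ_nonneg (hq : 0 ≤ q) (m : ℕ) (T : Multiset V) (x : V) : 0 ≤ JJ j q L m T x :=
  jump_nonneg hq (Nu_gL_nonneg L) m T x

lemma PP_nonneg (hq : 0 ≤ q) (m : ℕ) (T : Multiset V) : 0 ≤ PP j q L m T :=
  Pot_nonneg hq (Nu_gL_nonneg L) m T

lemma JJ_zero (hj : 1 ≤ j) (T : Multiset V) (x : V) : JJ j q L 0 T x = 0 := by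
  have := PP_cons (q := q) (L := L) hj 0 T x
  rw [PP_zero, PP_zero] at this
  linarith

lemma JJ_mono (hq : 0 ≤ q) {m m' : ℕ} (h : m ≤ m') (T : Multiset V) (x : V) :
    JJ j q L m T x ≤ JJ j q L m' T x := by
  unfold JJ jump
  refine sum_le_sum fun s _ => mul_le_mul_of_nonneg_right (mul_le_mul_of_nonneg_right ?_
    (pow_nonneg hq _)) (SS_nonneg fun ω _ _ => GG_nonneg (Nu_gL_nonneg L) _)
  exact_mod_cast Nat.choose_le_choose _ h

lemma PP_mono (hq : 0 ≤ q) (m : ℕ) {T W : Multiset V} (h : T ≤ W) :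
    PP j q L m T ≤ PP j q L m W := by
  unfold PP Pot
  exact sum_le_sum fun _ _ => mul_le_mul_of_nonneg_left
    (SS_le_of_le (GG_nonneg (Nu_gL_nonneg L)) h) (by positivity)

lemma En_sub (n : ℕ) (T : Multiset V) (F G : Multiset V → ℝ) :
    En q n T (fun W => F W - G W) = En q n T F - En q n T G := by
  have h := En_add (q := q) n T (fun W => F W - G W) G
  simp only [sub_add_cancel] at h
  exact eq_sub_of_add_eq h.symm

lemma En_PP (hj : 1 ≤ j) (m t : ℕ) (T : Multiset V) :
    En q t T (PP j q L m) = PP j q L (t + m) T - PP j q L t T := by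
  induction t generalizing T with
  | zero => rw [En_zero, PP_zero, zero_add, sub_zero]
  | succ t ih =>
    rw [En_succ, Nat.add_right_comm, PP_succ hj, PP_succ hj]
    simp only [ih, PP_cons hj, expect_add_distrib, expect_sub_distrib, expect_const univ_nonempty]
    ring

lemma En_JJ (hj : 1 ≤ j) (m t : ℕ) (T : Multiset V) (x : V) :
    En q t T (fun W => JJ j q L m W x) = JJ j q L (t + m) T x - JJ j q L t T x := by
  have h1 : (fun W => JJ j q L m W x) = fun W => PP j q L m (x ::ₘ W) - PP j q L m W := by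
    funext W; rw [PP_cons hj]; ring
  have h2 : En q t T (fun W => PP j q L m W) = En q t T (PP j q L m) := rfl
  rw [h1, En_sub, ← En_shift, h2, En_PP hj, En_PP hj, PP_cons hj, PP_cons hj]
  ring

lemma PP_ge (hj : 1 ≤ j) (hq : 0 ≤ q) (m : ℕ) (T : Multiset V) :
    m * (q * 𝔼 u, rel j (gL L) T u) ≤ PP j q L m T := by
  induction m with
  | zero => simp [PP_zero]
  | succ m ih =>
    rw [PP_succ hj, expect_add_distrib]
    have : 0 ≤ q * 𝔼 x, JJ j q L m T x :=
      mul_nonneg hq (expect_nonneg fun x _ => JJ_nonneg hq m T x)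
    push_cast
    linarith

lemma JJ_one (hj : 1 ≤ j) (W : Multiset V) (x : V) :
    JJ j q L 1 W x = q * 𝔼 u, (rel j (gL L) (x ::ₘ W) u - rel j (gL L) W u) := by
  have h1 : ∀ T : Multiset V, PP j q L 1 T = q * 𝔼 u, rel j (gL L) T u := fun T => by
    rw [PP_succ hj 0, PP_zero]
    simp only [JJ_zero hj, zero_add]
  have h2 := PP_cons (q := q) (L := L) hj 1 W x
  rw [h1, h1] at h2
  rw [expect_sub_distrib]
  linarith

lemma rel_mono (W : Multiset V) (x u : V) : rel j (gL L) W u ≤ rel j (gL L) (x ::ₘ W) u :=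
  SS_le_of_le (fun ω => Nu_gL_nonneg L ω u) (Multiset.le_cons_self _ _)

lemma ind_rel_le (W : Multiset V) (u : V) : ind (0 < rel j (gL L) W u) ≤ rel j (gL L) W u := by
  by_cases h : 0 < rel j (gL L) W u
  · rw [ind_pos h]; exact (rel_gL_pos h).1
  · rw [ind_neg h]; exact rel_nonneg (Nu_gL_nonneg L) W u

lemma ind_rel_up (W : Multiset V) (x u : V) :
    ind (0 < rel j (gL L) (x ::ₘ W) u) ≤ ind (0 < rel j (gL L) W u)
      + (rel j (gL L) (x ::ₘ W) u - rel j (gL L) W u) := by
  by_cases h : 0 < rel j (gL L) W u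
  · rw [ind_pos h]
    linarith [rel_mono (j := j) (L := L) W x u, ind_le_one (0 < rel j (gL L) (x ::ₘ W) u)]
  · rw [ind_neg h]
    linarith [ind_rel_le (j := j) (L := L) (x ::ₘ W) u, not_lt.1 h]

lemma RR_nonneg (hq : 0 ≤ q) (W : Multiset V) : 0 ≤ RR j q e H L L' W :=
  mul_nonneg hq (expect_nonneg fun _ _ =>
    mul_nonneg (mul_nonneg (ind_nonneg _) (ind_nonneg _)) (chi_nonneg _ _))

lemma RR_up (hj : 1 ≤ j) (hq : 0 ≤ q) (hH : 0 < H) (W : Multiset V) (x : V) :
    RR j q e H L L' (x ::ₘ W) ≤ RR j q e H L L' W + (JJ j q L 1 W x + JJ j q L' 1 W x) := by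
  rw [JJ_one hj, JJ_one hj, RR, RR, ← mul_add, ← mul_add, ← expect_add_distrib,
    ← expect_add_distrib]
  refine mul_le_mul_of_nonneg_left (expect_le_expect fun u _ => ?_) hq
  have a1 := ind_rel_up (j := j) (L := L) W x u
  have a2 := ind_rel_up (j := j) (L := L') W x u
  have a3 := sub_nonneg.2 (rel_mono (j := j) (L := L) W x u)
  have a4 := sub_nonneg.2 (rel_mono (j := j) (L := L') W x u)
  have c1 := chi_anti hH (PP_mono (j := j) (L := L') hq e (Multiset.le_cons_self W x))
  have c2 := chi_le_one hH (PP j q L' e (x ::ₘ W))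
  have c3 := chi_nonneg H (PP j q L' e (x ::ₘ W))
  generalize rel j (gL L) (x ::ₘ W) u - rel j (gL L) W u = r at *
  generalize rel j (gL L') (x ::ₘ W) u - rel j (gL L') W u = r' at *
  by_cases k1 : 0 < rel j (gL L) (x ::ₘ W) u
  · by_cases k2 : 0 < rel j (gL L') (x ::ₘ W) u
    · rw [ind_pos k1] at a1 ⊢
      rw [ind_pos k2] at a2 ⊢
      by_cases k3 : 0 < rel j (gL L) W u
      · by_cases k4 : 0 < rel j (gL L') W u
        · rw [ind_pos k3, ind_pos k4]; linarith
        · rw [ind_neg k4] at a2 ⊢; linarith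
      · rw [ind_neg k3] at a1 ⊢; linarith
    · rw [ind_neg k2, mul_zero, zero_mul]
      have := mul_nonneg (mul_nonneg (ind_nonneg (0 < rel j (gL L) W u))
        (ind_nonneg (0 < rel j (gL L') W u))) (c3.trans c1)
      linarith
  · rw [ind_neg k1, zero_mul, zero_mul]
    have := mul_nonneg (mul_nonneg (ind_nonneg (0 < rel j (gL L) W u))
      (ind_nonneg (0 < rel j (gL L') W u))) (c3.trans c1)
    linarith

lemma RR_down (hj : 1 ≤ j) (hq : 0 ≤ q) (hH : 0 < H) (W : Multiset V) (x : V) :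
    e * RR j q e H L L' W ≤ e * RR j q e H L L' (x ::ₘ W) + JJ j q L' e W x / 50 := by
  have c1 := sub_nonneg.2
    (chi_anti hH (PP_mono (j := j) (L := L') hq e (Multiset.le_cons_self W x)))
  have c2 := chi_lip hH (PP_mono (j := j) (L := L') hq e (Multiset.le_cons_self W x))
  have c3 := chi_nonneg H (PP j q L' e (x ::ₘ W))
  have c4 := mul_le_mul_of_nonneg_right (PP_ge (L := L') hj hq e W) c1
  have h1 : RR j q e H L L' W ≤ RR j q e H L L' (x ::ₘ W) + (q * 𝔼 u, rel j (gL L') W u)
      * (chi H (PP j q L' e W) - chi H (PP j q L' e (x ::ₘ W))) := by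
    rw [RR, RR, mul_assoc, expect_mul, ← mul_add, ← expect_add_distrib]
    refine mul_le_mul_of_nonneg_left (expect_le_expect fun u _ => ?_) hq
    have r0 := rel_nonneg (j := j) (Nu_gL_nonneg L') W u
    have r1 := mul_nonneg r0 c1
    have r2 := mul_nonneg (mul_nonneg (ind_nonneg (0 < rel j (gL L) (x ::ₘ W) u))
      (ind_nonneg (0 < rel j (gL L') (x ::ₘ W) u))) c3
    by_cases k3 : 0 < rel j (gL L) W u
    · by_cases k4 : 0 < rel j (gL L') W u
      · rw [ind_pos k3, ind_pos k4, ind_pos (k3.trans_le (rel_mono W x u)),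
          ind_pos (k4.trans_le (rel_mono W x u))]
        nlinarith [(rel_gL_pos k4).1]
      · rw [ind_neg k4]; linarith
    · rw [ind_neg k3]; linarith
  have h2 := mul_le_mul_of_nonneg_left h1 (Nat.cast_nonneg (α := ℝ) e)
  rw [PP_cons hj (L := L') e W x, add_sub_cancel_left, ← PP_cons hj] at c2
  nlinarith

lemma XX_nonneg (h0 : 0 ≤ q) (h1 : q ≤ 1) (n : ℕ) (T : Multiset V) :
    0 ≤ XX j q e H L L' n T :=
  sum_nonneg fun t _ => by
    have := En_mono h0 h1 t T (F := fun _ => (0 : ℝ)) (RR_nonneg (j := j) (e := e) (H := H)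
      (L := L) (L' := L') h0)
    rwa [En_const] at this

lemma XX_succ (n : ℕ) (T : Multiset V) :
    XX j q e H L L' (n + 1) T = RR j q e H L L' T + XX j q e H L L' n T
      + q * 𝔼 x, (XX j q e H L L' n (x ::ₘ T) - XX j q e H L L' n T) := by
  unfold XX
  rw [sum_range_succ', En_zero, expect_sub_distrib, expect_const univ_nonempty, expect_sum_comm]
  simp only [En_succ, sum_add_distrib, ← mul_sum]
  ring

lemma XX_up (hj : 1 ≤ j) (h0 : 0 ≤ q) (h1 : q ≤ 1) (hH : 0 < H) (n : ℕ) (T : Multiset V) (x : V) :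
    XX j q e H L L' n (x ::ₘ T) - XX j q e H L L' n T
      ≤ JJ j q L (n + e) T x + JJ j q L' (n + e) T x := by
  have a1 : ∀ t ∈ range n, En q t (x ::ₘ T) (RR j q e H L L')
      ≤ En q t T (RR j q e H L L') + ((JJ j q L (t + 1) T x - JJ j q L t T x)
        + (JJ j q L' (t + 1) T x - JJ j q L' t T x)) := fun t _ => by
    rw [En_shift, ← En_JJ hj, ← En_JJ hj, ← En_add, ← En_add]
    exact En_mono h0 h1 t T fun W => RR_up hj h0 hH W x
  have a2 := sum_le_sum a1
  rw [sum_add_distrib, sum_add_distrib, sum_range_sub (fun t => JJ j q L t T x),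
    sum_range_sub (fun t => JJ j q L' t T x), JJ_zero hj, JJ_zero hj] at a2
  have a3 := JJ_mono (j := j) (L := L) h0 (Nat.le_add_right n e) T x
  have a4 := JJ_mono (j := j) (L := L') h0 (Nat.le_add_right n e) T x
  unfold XX
  linarith

lemma XX_down (hj : 1 ≤ j) (he : 1 ≤ e) (h0 : 0 ≤ q) (h1 : q ≤ 1) (hH : 0 < H) (n : ℕ)
    (T : Multiset V) (x : V) :
    -(JJ j q L' (n + e) T x / 50) ≤ XX j q e H L L' n (x ::ₘ T) - XX j q e H L L' n T := by
  have a1 : ∀ t ∈ range n, e * En q t T (RR j q e H L L')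
      ≤ e * En q t (x ::ₘ T) (RR j q e H L L')
        + 1 / 50 * (JJ j q L' (e + t) T x - JJ j q L' t T x) := fun t _ => by
    rw [En_shift, add_comm e t, ← En_JJ hj, ← En_mul, ← En_mul, ← En_mul, ← En_add]
    refine En_mono h0 h1 t T fun W => ?_
    linarith [RR_down (e := e) (L := L) (L' := L') hj h0 hH W x]
  have a2 := sum_le_sum a1
  rw [sum_add_distrib, ← mul_sum, ← mul_sum, ← mul_sum, sum_sub_distrib] at a2
  have a3 := sum_range_add (fun t => JJ j q L' t T x) e n
  have a4 := sum_range_add (fun t => JJ j q L' t T x) n e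
  rw [add_comm e n, a4] at a3
  have a5 : 0 ≤ ∑ t ∈ range e, JJ j q L' t T x := sum_nonneg fun t _ => JJ_nonneg h0 t T x
  have a6 : ∑ t ∈ range e, JJ j q L' (n + t) T x ≤ e * JJ j q L' (n + e) T x := by
    refine (sum_le_card_nsmul _ _ _ fun t ht => JJ_mono h0
      (Nat.add_le_add_left (mem_range.1 ht).le n) T x).trans (le_of_eq ?_)
    rw [card_range, nsmul_eq_mul]
  have he' : (0 : ℝ) < e := by exact_mod_cast he
  refine le_of_mul_le_mul_left ?_ he'
  unfold XX
  linarith

/-- the pointwise drift inequality -/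
theorem pointwiseG (hq : 0 ≤ q) (n : ℕ) (T : Multiset V) (x : V) {Δ : ℝ}
    (h1 : -(jump j q e (gL L') n T x / 50) ≤ Δ)
    (h2 : Δ ≤ jump j q e (gL L) n T x + jump j q e (gL L') n T x) :
    rhoG j q e L n T x * rhoG j q e L' n T x
        * Real.exp (jump j q e (gL L) n T x / 4 + jump j q e (gL L') n T x / 4 + Δ / 2)
      + (1 - rhoG j q e L n T x) + (1 - rhoG j q e L' n T x) - 1
    ≤ (jump j q e (gL L) n T x + rel j (gL L) T x) / 4
      + (jump j q e (gL L') n T x + rel j (gL L') T x) / 4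
      + (Δ + ind (0 < rel j (gL L) T x) * ind (0 < rel j (gL L') T x)) / 2 := by
  have d1 := jump_nonneg (j := j) (e := e) hq (Nu_gL_nonneg L) n T x
  have d2 := jump_nonneg (j := j) (e := e) hq (Nu_gL_nonneg L') n T x
  have r1 := rel_nonneg (j := j) (Nu_gL_nonneg L) T x
  have r2 := rel_nonneg (j := j) (Nu_gL_nonneg L') T x
  unfold rhoG
  by_cases k1 : 0 < rel j (gL L) T x
  · have g1 := (rel_gL_pos k1).1
    rw [if_pos k1, ind_pos k1]
    by_cases k2 : 0 < rel j (gL L') T x
    · have g2 := (rel_gL_pos k2).1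
      rw [if_pos k2, ind_pos k2]
      linarith
    · rw [if_neg k2, ind_neg k2]
      linarith [rho1_b (jump j q e (gL L') n T x)]
  · rw [if_neg k1, ind_neg k1]
    by_cases k2 : 0 < rel j (gL L') T x
    · have g2 := (rel_gL_pos k2).1
      rw [if_pos k2]
      linarith [rho1_b (jump j q e (gL L) n T x)]
    · rw [if_neg k2]
      have := rho1_pair (y := jump j q e (gL L) n T x / 4 + jump j q e (gL L') n T x / 4 + Δ / 2)
        d1 d2 (by linarith) (by linarith)
      linarith

/-- the pair supermartingale -/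
theorem pairG (hj : 1 ≤ j) (he : 1 ≤ e) (h0 : 0 ≤ q) (h1 : q < 1) (hH : 0 < H) (n : ℕ)
    (T : Multiset V) :
    nu2 q (rhoG j q e L) (rhoG j q e L') n T (fun W => ind (PP j q L' e W ≤ H))
      ≤ Real.exp (Pot j q e (gL L) n T / 4 + Pot j q e (gL L') n T / 4
          + XX j q e H L L' n T / 2 + n * q ^ 2 / (1 - q)) := by
  have h1q : 0 < 1 - q := by linarith
  have hρ := rhoG_mem (j := j) (e := e) (L := L) h0
  have hρ' := rhoG_mem (j := j) (e := e) (L := L') h0
  induction n generalizing T with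
  | zero =>
    rw [nu2_zero]
    refine (ind_le_one _).trans (Real.one_le_exp ?_)
    have a1 := Pot_nonneg (j := j) (e := e) h0 (Nu_gL_nonneg L) 0 T
    have a2 := Pot_nonneg (j := j) (e := e) h0 (Nu_gL_nonneg L') 0 T
    have a3 := XX_nonneg (j := j) (e := e) (H := H) (L := L) (L' := L') h0 h1.le 0 T
    simp only [Nat.cast_zero, zero_mul, zero_div, add_zero]
    linarith
  | succ n ih =>
    by_cases hT : PP j q L' e T ≤ H
    swap
    · refine le_trans (nu2_mono h0 h1 hρ hρ' (n + 1) (G := fun W => 0 * ind (PP j q L' e W ≤ H))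
        fun W hW => ?_) ?_
      · rw [ind_neg (fun h => hT ((PP_mono h0 e hW).trans h)), zero_mul]
      · rw [nu2_mul, zero_mul]
        exact (Real.exp_pos _).le
    set U : ℝ := Pot j q e (gL L) n T / 4 + Pot j q e (gL L') n T / 4
          + XX j q e H L L' n T / 2 + n * q ^ 2 / (1 - q) with hU
    set Δ : V → ℝ := fun x => XX j q e H L L' n (x ::ₘ T) - XX j q e H L L' n T with hΔ
    set k : V → ℝ := fun x => rhoG j q e L n T x * rhoG j q e L' n T x *
      Real.exp (jump j q e (gL L) n T x / 4 + jump j q e (gL L') n T x / 4 + Δ x / 2) with hk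
    set a : ℝ := 𝔼 x, (1 - rhoG j q e L n T x) with ha
    set a' : ℝ := 𝔼 x, (1 - rhoG j q e L' n T x) with ha'
    set t : V → ℝ := fun x => (jump j q e (gL L) n T x + rel j (gL L) T x) / 4
      + (jump j q e (gL L') n T x + rel j (gL L') T x) / 4
      + (Δ x + ind (0 < rel j (gL L) T x) * ind (0 < rel j (gL L') T x)) / 2 with ht
    have ha0 : 0 ≤ a := expect_nonneg (fun x _ => by linarith [(hρ n T x).2])
    have ha0' : 0 ≤ a' := expect_nonneg (fun x _ => by linarith [(hρ' n T x).2])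
    have ha1 : a ≤ 1 := expect_le univ_nonempty fun x _ => by linarith [(hρ n T x).1]
    have ha1' : a' ≤ 1 := expect_le univ_nonempty fun x _ => by linarith [(hρ' n T x).1]
    have htk : (𝔼 x, k x) + a + a' - 1 ≤ 𝔼 x, t x := by
      have b1 : 𝔼 x, (k x + (1 - rhoG j q e L n T x) + (1 - rhoG j q e L' n T x) - 1)
          ≤ 𝔼 x, t x :=
        expect_le_expect (fun x _ => pointwiseG h0 n T x (XX_down hj he h0 h1.le hH n T x)
          (XX_up hj h0 h1.le hH n T x))
      rwa [expect_sub_distrib, expect_add_distrib, expect_add_distrib,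
        expect_const univ_nonempty] at b1
    have hA : (1 - q) * ((1 + q * a / (1 - q)) * (1 + q * a' / (1 - q)))
        = 1 - q + q * a + q * a' + q ^ 2 / (1 - q) * (a * a') := by
      field_simp
      ring
    have hA0 : 0 ≤ (1 - q) * ((1 + q * a / (1 - q)) * (1 + q * a' / (1 - q))) := by positivity
    have b2 : 𝔼 x, rhoG j q e L n T x * rhoG j q e L' n T x
          * nu2 q (rhoG j q e L) (rhoG j q e L') n (x ::ₘ T) (fun W => ind (PP j q L' e W ≤ H))
        ≤ 𝔼 x, Real.exp U * k x := by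
      refine expect_le_expect (fun x _ => ?_)
      have b3 := ih (x ::ₘ T)
      rw [Pot_cons hj, Pot_cons hj] at b3
      refine (mul_le_mul_of_nonneg_left b3 (mul_nonneg (hρ n T x).1 (hρ' n T x).1)).trans
        (le_of_eq ?_)
      simp only [hk]
      rw [mul_left_comm, ← Real.exp_add]
      congr 2
      simp only [hU, hΔ]
      ring
    rw [← mul_expect] at b2
    have hfin : Pot j q e (gL L) (n + 1) T / 4 + Pot j q e (gL L') (n + 1) T / 4
          + XX j q e H L L' (n + 1) T / 2 + ((n + 1 : ℕ) : ℝ) * q ^ 2 / (1 - q)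
        = U + (q * (𝔼 x, t x) + q ^ 2 / (1 - q)) := by
      rw [Pot_succ hj, Pot_succ hj, XX_succ, RR, chi_of_le hH hT]
      simp only [hU, ht, hΔ, mul_one, div_eq_mul_inv _ (4 : ℝ), div_eq_mul_inv _ (2 : ℝ),
        expect_add_distrib, ← expect_mul]
      push_cast
      ring
    rw [hfin, nu2_succ, Real.exp_add]
    have b4 := mul_le_mul_of_nonneg_left (ih T) hA0
    have b5 := mul_le_mul_of_nonneg_left b2 h0
    have b6 : (1 - q) * ((1 + q * a / (1 - q)) * (1 + q * a' / (1 - q))) + q * 𝔼 x, k x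
        ≤ Real.exp (q * (𝔼 x, t x) + q ^ 2 / (1 - q)) := by
      have hq2 : 0 ≤ q ^ 2 / (1 - q) := by positivity
      have b7 : a * a' ≤ 1 := mul_le_one₀ ha1 ha0' ha1'
      have b8 := mul_le_mul_of_nonneg_left b7 hq2
      have b9 := mul_le_mul_of_nonneg_left htk h0
      rw [hA]
      linarith [Real.add_one_le_exp (q * (𝔼 x, t x) + q ^ 2 / (1 - q))]
    have b10 := mul_le_mul_of_nonneg_left b6 (Real.exp_pos U).le
    linarith

end Pool.Agent.P.MP_7badbe_co
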