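import Pool.Agent.P.MP_7badbe_co.Gr.B

set_option autoImplicit false
set_option linter.unusedSectionVars false

open Finset Filter Topology
open scoped BigOperators

namespace Pool.Agent.P.MP_7badbe_co

variable {V : Type} [Fintype V] [Nonempty V]

def CovX (j : ℕ) (q : ℝ) (e : ℕ) (H : ℝ) (L : Multiset V → Prop) (W : Multiset V) (x : V) :
    Prop := 0 < rel j (gL L) W x ∧ PP j q L e W ≤ H

open Classical in
/-- number of points of `J` that close an edge with the rest of `W` -/
noncomputable def cntX (j : ℕ) (q : ℝ) (e : ℕ) (H : ℝ) (L : Multiset V → Prop)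
    (W J : Multiset V) : ℕ :=
  J.countP (fun x => CovX j q e H L (W.erase x) x)

noncomputable def CG (j : ℕ) (q : ℝ) (e : ℕ) (H Λ : ℝ) (L : Multiset V → Prop) (r : ℕ)
    (R I : Multiset V) : ℝ :=
  ind (PP j q L e R ≤ H) * SS (j - r) (fun σ => ind (L (σ + I))) R * Λ ^ r

/-- the mean over the time of the last point, the other points and the edge -/
noncomputable def II (j : ℕ) (q : ℝ) (n : ℕ) (f : Multiset V → Multiset V → ℝ) : ℝ :=
  ∑ t ∈ range n, (t.choose (j - 1) : ℝ) * q ^ j * En q (t - (j - 1)) 0 (fun W => Ex j (f W))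

variable {j e : ℕ} {q H Λ τ : ℝ} {L L' : Multiset V → Prop}

omit [Nonempty V] in
lemma En_expect (n : ℕ) (T : Multiset V) (F : V → Multiset V → ℝ) :
    En q n T (fun W => 𝔼 x, F x W) = 𝔼 x, En q n T (F x) :=
  Path_Pe_expect univ n (fun x p => F x (fin T p))

theorem mecke (t s : ℕ) (Φ : Multiset V → Multiset V → ℝ) :
    En q t 0 (splitSum s Φ)
      = (t.choose s : ℝ) * q ^ s * Ex s (fun ω => En q (t - s) 0 (Φ ω)) := by
  induction t generalizing s Φ with
  | zero => cases s <;> simp [En_zero, splitSum]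
  | succ t ih =>
    cases s with
    | zero =>
      rw [show splitSum 0 Φ = Φ 0 from funext (splitSum_zero Φ)]
      simp
    | succ s =>
      have h1 : ∀ x, En q t (x ::ₘ 0) (splitSum (s + 1) Φ)
          = En q t 0 (splitSum (s + 1) (fun I J => Φ I (x ::ₘ J)))
            + En q t 0 (splitSum s (fun I J => Φ (x ::ₘ I) J)) := fun x => by
        rw [En_shift, ← En_add]
        simp only [splitSum_succ_cons]
      rw [En_succ]
      simp only [h1, ih, expect_add_distrib, ← mul_expect]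
      rw [← Ex_expect, Nat.add_sub_add_right, Nat.choose_succ_succ',
        ← Ex_succ s (fun ω => En q (t - s) 0 (Φ ω))]
      rcases Nat.lt_or_ge t (s + 1) with h | h
      · rw [Nat.choose_eq_zero_of_lt h]
        push_cast
        ring
      · have h2 : Ex (s + 1) (fun ω => En q (t - s) 0 (Φ ω))
            = (1 - q) * Ex (s + 1) (fun ω => En q (t - (s + 1)) 0 (Φ ω))
              + q * Ex (s + 1) (fun ω => 𝔼 x, En q (t - (s + 1)) 0 (fun J => Φ ω (x ::ₘ J))) := by
          rw [show t - s = t - (s + 1) + 1 by omega, ← Ex_mul, ← Ex_mul, ← Ex_add]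
          simp only [En_succ, En_shift]
        rw [h2]
        push_cast
        ring

lemma SS_Ex (s r : ℕ) (F : Multiset V → Multiset V → ℝ) (T : Multiset V) :
    Ex r (fun I => SS s (F I) T) = SS s (fun σ => Ex r (fun I => F I σ)) T := by
  induction r generalizing F with
  | zero => rfl
  | succ r ih => simp only [Ex_succ, ih, SS_expect]

lemma CG_nonneg (hΛ : 1 ≤ Λ) (r : ℕ) (R I : Multiset V) : 0 ≤ CG j q e H Λ L r R I :=
  mul_nonneg (mul_nonneg (ind_nonneg _) (SS_nonneg fun _ _ _ => ind_nonneg _))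
    (pow_nonneg (by linarith) _)

lemma CG_mean (hq : 0 ≤ q) (hΛ : 1 ≤ Λ) (hH : 0 < H) (hτ : 0 ≤ τ) {r : ℕ} (h1 : 1 ≤ r) (hr : r ≤ j)
    (hc : H ≤ τ ^ r * ((e.choose r : ℝ) * q ^ r)) (R : Multiset V) :
    Ex r (CG j q e H Λ L r R) ≤ (Λ * τ) ^ r := by
  have a1 : Ex r (CG j q e H Λ L r R)
      = ind (PP j q L e R ≤ H) * SS (j - r) (GG j (gL L)) R * Λ ^ r := by
    unfold CG
    rw [Ex_mul', Ex_mul, SS_Ex]
    congr 2
    refine SS_congr fun σ _ hσ => ?_
    rw [GG_gL L (by omega), hσ, show j - (j - r) = r by omega]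
  have a2 : (e.choose r : ℝ) * q ^ r * SS (j - r) (GG j (gL L)) R ≤ PP j q L e R := by
    have := single_le_sum (s := range j) (a := j - r) (f := fun s => ((e + 0).choose (j - s) : ℝ)
      * q ^ (j - s) * SS s (GG j (gL L)) R) (fun s _ => mul_nonneg (by positivity)
        (SS_nonneg fun _ _ _ => GG_nonneg (Nu_gL_nonneg L) _)) (mem_range.2 (by omega))
    simp only [show j - (j - r) = r by omega] at this
    exact this
  rw [a1, mul_pow, mul_comm (Λ ^ r)]
  refine mul_le_mul_of_nonneg_right ?_ (pow_nonneg (by linarith) _)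
  by_cases k : PP j q L e R ≤ H
  · rw [ind_pos k, one_mul]
    have a3 : 0 < (e.choose r : ℝ) * q ^ r := by
      rcases (show 0 ≤ (e.choose r : ℝ) * q ^ r by positivity).eq_or_lt with h | h
      · rw [← h, mul_zero] at hc; linarith
      · exact h
    refine le_of_mul_le_mul_left ?_ a3
    linarith
  · rw [ind_neg k, zero_mul]; positivity

lemma CF_point (hq : 0 ≤ q) (hΛ : 1 ≤ Λ) (R J : Multiset V) (h : J.card ≤ j) :
    Λ ^ cntX j q e H L (R + J) J ≤ 1 + ∑ s ∈ range J.card, splitSum (s + 1)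
      (fun I W => CG j q e H Λ L (s + 1) R I * Λ ^ cntX j q e H L (R + I + W) W) J := by
  classical
  have h0 : ∀ s I W, 0 ≤ CG j q e H Λ L (s + 1) R I * Λ ^ cntX j q e H L (R + I + W) W :=
    fun s I W => mul_nonneg (CG_nonneg hΛ _ _ _) (pow_nonneg (by linarith) _)
  have hs0 : ∀ s ∈ range J.card, 0 ≤ splitSum (s + 1)
      (fun I W => CG j q e H Λ L (s + 1) R I * Λ ^ cntX j q e H L (R + I + W) W) J :=
    fun s _ => splitSum_nonneg (h0 s) _
  have hS := sum_nonneg hs0
  by_cases hc : cntX j q e H L (R + J) J = 0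
  · rw [hc, pow_zero]; linarith
  obtain ⟨x, hx, hr, hP⟩ := Multiset.countP_pos.1 (Nat.pos_of_ne_zero hc)
  obtain ⟨-, σ, hσ, hσc, hL⟩ := rel_gL_pos hr
  rw [Multiset.erase_add_right_pos _ hx] at hσ hP
  have h1 : σ - R ≤ J.erase x := tsub_le_iff_left.2 hσ
  have h2 : x ::ₘ (σ - R) ≤ J := by
    rw [← Multiset.cons_erase hx]; exact Multiset.cons_le_cons _ h1
  obtain ⟨W, hW⟩ := Multiset.le_iff_exists_add.1 h2
  set I := x ::ₘ (σ - R) with hI
  set s := (σ - R).card with hs
  have hIc : I.card = s + 1 := by rw [hI, Multiset.card_cons]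
  have hJc : J.card = s + 1 + W.card := by rw [hW, Multiset.card_add, hIc]
  have ht : σ ∩ R + I = x ::ₘ σ := by
    rw [hI, Multiset.add_cons, add_comm, Multiset.sub_add_inter]
  have htc : (σ ∩ R).card = j - (s + 1) := by
    have := congrArg Multiset.card ht
    rw [Multiset.card_add, hIc, Multiset.card_cons] at this
    omega
  have hG : Λ ^ (s + 1) ≤ CG j q e H Λ L (s + 1) R I := by
    have h3 := le_SS (F := fun σ => ind (L (σ + I))) (fun _ => ind_nonneg _)
      (Multiset.inter_le_right (s := σ) (t := R)) htc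
    simp only [ht, ind_pos hL] at h3
    rw [CG, ind_pos ((PP_mono hq e (Multiset.le_add_right _ _)).trans hP), one_mul]
    exact le_mul_of_one_le_left (pow_nonneg (by linarith) _) h3
  have hRJ : R + I + W = R + J := by rw [hW, add_assoc]
  have hcnt : cntX j q e H L (R + J) J ≤ s + 1 + cntX j q e H L (R + J) W := by
    have h4 : cntX j q e H L (R + J) (I + W)
        = cntX j q e H L (R + J) I + cntX j q e H L (R + J) W := Multiset.countP_add _ _ _
    have h5 : cntX j q e H L (R + J) I ≤ I.card := Multiset.countP_le_card _ _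
    rw [← hW] at h4
    omega
  have h6 : Λ ^ cntX j q e H L (R + J) J
      ≤ CG j q e H Λ L (s + 1) R I * Λ ^ cntX j q e H L (R + I + W) W := by
    refine le_trans ?_ (mul_le_mul_of_nonneg_right hG (pow_nonneg (by linarith) _))
    rw [hRJ, ← pow_add]
    exact pow_le_pow_right₀ hΛ hcnt
  have h7 := le_splitSum (h0 s) I W hIc
  rw [← hW] at h7
  have h8 := single_le_sum hs0 (mem_range.2 (by omega : s < J.card))
  linarith

/-- few points of a random edge close an edge of the other link -/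
theorem coverG (hq : 0 ≤ q) (hΛ : 1 ≤ Λ) (hH : 0 < H) (hτ : 0 ≤ τ)
    (hc : ∀ r, 1 ≤ r → r ≤ j → H ≤ τ ^ r * ((e.choose r : ℝ) * q ^ r))
    (hj : j * (Λ * τ) ≤ 1 / 4) (N : ℕ) : N ≤ j → ∀ R : Multiset V,
    Ex N (fun J => Λ ^ cntX j q e H L (R + J) J) ≤ 2 := by
  induction N using Nat.strong_induction_on with
  | _ N ih =>
  intro hN R
  have h1 : Ex N (fun J => Λ ^ cntX j q e H L (R + J) J) ≤ Ex N (fun J => 1 + ∑ s ∈ range N,
      splitSum (s + 1)
        (fun I W => CG j q e H Λ L (s + 1) R I * Λ ^ cntX j q e H L (R + I + W) W) J) := by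
    refine Ex_mono (fun J hJ => ?_)
    have := CF_point (j := j) (e := e) (H := H) (L := L) hq hΛ R J (by omega)
    rwa [hJ] at this
  rw [Ex_add, Ex_const, Ex_sum] at h1
  have h0 : 0 ≤ Λ * τ := mul_nonneg (by linarith) hτ
  have h2 : ∀ s ∈ range N, Ex N (splitSum (s + 1)
      (fun I W => CG j q e H Λ L (s + 1) R I * Λ ^ cntX j q e H L (R + I + W) W))
      ≤ (1 / 4) ^ (s + 1) * 2 := by
    intro s hs
    have hs' := mem_range.1 hs
    rw [Ex_splitSum]
    have h3 : Ex (s + 1) (fun I => Ex (N - (s + 1))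
        (fun W => CG j q e H Λ L (s + 1) R I * Λ ^ cntX j q e H L (R + I + W) W))
        ≤ Ex (s + 1) (fun I => CG j q e H Λ L (s + 1) R I * 2) := by
      refine Ex_mono (fun I _ => ?_)
      rw [Ex_mul]
      exact mul_le_mul_of_nonneg_left (ih _ (by omega) (by omega) (R + I)) (CG_nonneg hΛ _ _ _)
    rw [Ex_mul'] at h3
    have h4 := CG_mean (j := j) (L := L) hq hΛ hH hτ (r := s + 1) (by omega) (by omega)
      (hc _ (by omega) (by omega)) R
    have h5 : (N.choose (s + 1) : ℝ) ≤ (j : ℝ) ^ (s + 1) := by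
      exact_mod_cast (Nat.choose_le_pow _ _).trans (Nat.pow_le_pow_left hN _)
    have h6 : (j : ℝ) ^ (s + 1) * (Λ * τ) ^ (s + 1) ≤ (1 / 4) ^ (s + 1) := by
      rw [← mul_pow]
      exact pow_le_pow_left₀ (by positivity) hj _
    have h7 : Ex (s + 1) (fun I => CG j q e H Λ L (s + 1) R I)
      = Ex (s + 1) (CG j q e H Λ L (s + 1) R) := rfl
    calc _ ≤ (N.choose (s + 1) : ℝ) * ((Λ * τ) ^ (s + 1) * 2) :=
          mul_le_mul_of_nonneg_left (by linarith) (Nat.cast_nonneg _)
      _ ≤ (j : ℝ) ^ (s + 1) * ((Λ * τ) ^ (s + 1) * 2) :=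
          mul_le_mul_of_nonneg_right h5 (by positivity)
      _ ≤ _ := by linarith
  have h4 := sum_le_sum h2
  have h5 : ∀ M : ℕ, ∑ s ∈ range M, (1 / 4 : ℝ) ^ (s + 1) * 2 = 2 / 3 * (1 - (1 / 4) ^ M) := by
    intro M
    induction M with
    | zero => simp
    | succ M ihM => rw [sum_range_succ, ihM]; ring
  rw [h5] at h4
  have h6 : (0 : ℝ) ≤ (1 / 4) ^ N := by positivity
  linarith

lemma II_mono (h0 : 0 ≤ q) (h1 : q ≤ 1) (n : ℕ) {f g : Multiset V → Multiset V → ℝ}
    (h : ∀ W J, J.card = j → f W J ≤ g W J) : II j q n f ≤ II j q n g :=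
  sum_le_sum fun _ _ => mul_le_mul_of_nonneg_left
    (En_mono h0 h1 _ _ fun W => Ex_mono (h W)) (by positivity)

lemma II_add (n : ℕ) (f g : Multiset V → Multiset V → ℝ) :
    II j q n (fun W J => f W J + g W J) = II j q n f + II j q n g := by
  simp only [II, Ex_add, En_add, mul_add, sum_add_distrib]

lemma II_mul (n : ℕ) (c : ℝ) (f : Multiset V → Multiset V → ℝ) :
    II j q n (fun W J => c * f W J) = c * II j q n f := by
  simp only [II, Ex_mul, En_mul, mul_sum, mul_left_comm _ c]

lemma II_Ex (n y : ℕ) (f : Multiset V → Multiset V → Multiset V → ℝ) :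
    Ex y (fun Y => II j q n (f Y)) = II j q n (fun W J => Ex y (fun Y => f Y W J)) := by
  unfold II
  rw [Ex_sum]
  refine sum_congr rfl fun t _ => ?_
  rw [Ex_mul, En_Ex]
  congr 2
  funext W
  exact Ex_comm _ _ _

lemma II_le (hj : 1 ≤ j) (h0 : 0 ≤ q) (h1 : q ≤ 1) (n : ℕ) {f : Multiset V → Multiset V → ℝ}
    {c : ℝ} (h : ∀ W, Ex j (f W) ≤ c) : II j q n f ≤ (n.choose j : ℝ) * q ^ j * c := by
  obtain ⟨r, rfl⟩ : ∃ r, j = r + 1 := ⟨j - 1, by omega⟩
  have a1 : ∀ n : ℕ, ∑ t ∈ range n, (t.choose r : ℝ) = n.choose (r + 1) := fun n => by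
    induction n with
    | zero => simp
    | succ n ih => rw [sum_range_succ, ih, Nat.choose_succ_succ']; push_cast; ring
  rw [← a1, sum_mul, sum_mul]
  refine sum_le_sum fun t _ => mul_le_mul_of_nonneg_left ?_ (by positivity)
  exact (En_mono h0 h1 _ _ h).trans (En_const _ _ _).le

lemma II_jensen (h0 : 0 ≤ q) (h1 : q ≤ 1) (n : ℕ) {d : ℝ} (hd : 0 < d)
    (φ s : Multiset V → Multiset V → ℝ) (hφ : ∀ W J, 0 ≤ φ W J) (hφd : II j q n φ ≤ d) :
    Real.exp (II j q n (fun W J => φ W J * s W J) / d)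
      ≤ 1 + II j q n (fun W J => φ W J * Real.exp (s W J)) / d := by
  obtain ⟨t, ht⟩ : ∃ t, t = II j q n (fun W J => φ W J * s W J) / d := ⟨_, rfl⟩
  have key : ∀ u, Real.exp t * (1 - t) + Real.exp t * u ≤ Real.exp u := fun u => by
    have := mul_le_mul_of_nonneg_left (Real.add_one_le_exp (u - t)) (Real.exp_pos t).le
    rw [← Real.exp_add, add_sub_cancel] at this
    linarith
  have a1 : II j q n (fun W J => Real.exp t * (1 - t) * φ W J + Real.exp t * (φ W J * s W J))
      ≤ II j q n (fun W J => φ W J * Real.exp (s W J)) := II_mono h0 h1 n fun W J _ => by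
    have := mul_le_mul_of_nonneg_left (key (s W J)) (hφ W J)
    linarith
  rw [II_add, II_mul, II_mul] at a1
  have a2 := key 0
  rw [Real.exp_zero, mul_zero, add_zero] at a2
  have a3 := mul_le_mul_of_nonneg_left a2 (sub_nonneg.2 hφd)
  have a4 : 0 ≤ II j q n φ := by
    have := II_mono (j := j) h0 h1 n (f := fun W J => 0 * φ W J) (g := φ)
      fun W J _ => by linarith [hφ W J]
    rwa [II_mul, zero_mul] at this
  rw [← ht, one_add_div hd.ne', le_div_iff₀ hd]
  rw [eq_div_iff hd.ne'] at ht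
  rw [← ht] at a1
  have a5 : II j q n (fun W J => φ W J) = II j q n φ := rfl
  linarith

lemma cntX_sym (r : ℕ) (φ : Multiset V → ℝ) (W : Multiset V) :
    Ex (r + 1) (fun J => φ J * cntX j q e H L (W + J) J)
      = (r + 1) * Ex r (fun R => 𝔼 x, φ (x ::ₘ R) * ind (CovX j q e H L (W + R) x)) := by
  classical
  have := Ex_splitSum (r + 1) 1
    (fun I R : Multiset V => φ (I + R) * (I.map fun x => ind (CovX j q e H L (W + R) x)).sum)
  rw [Nat.choose_one_right, Nat.add_sub_cancel, Ex_succ 0] at this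
  simp only [Ex_zero, Multiset.cons_zero, Multiset.singleton_add, Multiset.map_singleton,
    Multiset.sum_singleton] at this
  rw [Ex_expect, ← Nat.cast_add_one, ← this]
  refine Ex_congr fun J _ => ?_
  rw [splitSum_one]
  simp only [Multiset.singleton_add, Multiset.map_singleton, Multiset.sum_singleton]
  rw [Multiset.map_congr rfl (g := fun x => φ J * ind (CovX j q e H L ((W + J).erase x) x))
    fun x hx => by rw [Multiset.cons_erase hx, Multiset.erase_add_right_pos _ hx],
    Multiset.sum_map_mul_left]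
  congr 1
  unfold cntX
  have : ∀ (P : V → Prop) (_ : DecidablePred P) (M : Multiset V),
      (M.countP P : ℝ) = (M.map fun x => ind (P x)).sum := fun P _ M => by
    induction M using Multiset.induction_on with
    | empty => simp
    | cons a M ih => by_cases h : P a <;> simp [ind, h, ih, add_comm]
  exact this _ _ _

lemma XX_init (hj : 1 ≤ j) (h0 : 0 ≤ q) (h1 : q ≤ 1) (hH : 0 < H) (n : ℕ) :
    j * XX j q e H L L' n 0
      ≤ II j q n (fun W J => ind (L J) * cntX j q e (Real.exp 50 * H) L' (W + J) J) := by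
  obtain ⟨r, rfl⟩ : ∃ r, j = r + 1 := ⟨j - 1, by omega⟩
  have a1 : ∀ W, RR (r + 1) q e H L L' W ≤ splitSum r (fun ω W' => q * 𝔼 x, ind (L (x ::ₘ ω))
      * ind (CovX (r + 1) q e (Real.exp 50 * H) L' (W' + ω) x)) W := fun W => by
    rw [splitSum_mul, splitSum_expect]
    refine mul_le_mul_of_nonneg_left (expect_le_expect fun x _ => ?_) h0
    calc _ ≤ ind (CovX (r + 1) q e (Real.exp 50 * H) L' W x) * rel (r + 1) (gL L) W x := by
          rw [CovX, ind_and, mul_assoc, mul_comm]
          exact mul_le_mul (mul_le_mul_of_nonneg_left (chi_le_ind hH _) (ind_nonneg _))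
            (ind_rel_le W x) (ind_nonneg _) (mul_nonneg (ind_nonneg _) (ind_nonneg _))
      _ ≤ _ := by
          rw [rel, SS, ← splitSum_mul]
          refine splitSum_mono fun I J hIJ _ => ?_
          rw [add_comm J I, hIJ, mul_comm]
          rfl
  rw [XX, mul_sum]
  refine sum_le_sum fun t _ => ?_
  have a2 := En_mono h0 h1 t 0 a1
  rw [mecke, En_Ex] at a2
  simp only [Ex_mul, En_mul] at a2
  simp only [cntX_sym r (fun J => ind (L J)), En_mul, Nat.add_sub_cancel]
  refine (mul_le_mul_of_nonneg_left a2 (Nat.cast_nonneg _)).trans (le_of_eq ?_)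
  push_cast
  ring

/-- the initial cross potential averaged over pairs of links -/
theorem startG {y n : ℕ} (hj : 1 ≤ j) (h0 : 0 ≤ q) (h1 : q ≤ 1) (hH : 0 < H) {h d β κ : ℝ}
    (hh : (n.choose j : ℝ) * q ^ j ≤ h) (hh0 : 0 < h) (hd : 0 < d) (hκ : 0 ≤ κ)
    (hΛ : Real.exp (h * d / (2 * j)) ≤ Λ) (hτ : 0 ≤ τ)
    (hc : ∀ r, 1 ≤ r → r ≤ j → Real.exp 50 * H ≤ τ ^ r * ((e.choose r : ℝ) * q ^ r))
    (hjτ : j * (Λ * τ) ≤ 1 / 4)
    (L : Multiset V → Multiset V → Prop) (bad : Multiset V → Prop)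
    (hgood : ∀ J, J.card = j → ¬ bad J → Ex y (fun Y => ind (L Y J)) ≤ κ)
    (ok : Multiset V → Prop)
    (hok : ∀ Y, ok Y → Ex j (fun J => ind (L Y J)) ≤ d ∧
      Ex j (fun J => ind (L Y J) * ind (bad J)) ≤ β) (Y' : Multiset V) :
    Ex y (fun Y => ind (ok Y) * Real.exp (XX j q e H (L Y) (L Y') n 0 / 2))
      ≤ Real.exp (h * β / 2) * (1 + 2 * κ / d) := by
  have j0 : (0 : ℝ) < j := by exact_mod_cast hj
  have hΛ1 : 1 ≤ Λ := (Real.one_le_exp (by positivity)).trans hΛ
  have i0 := ind_nonneg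
  set c : Multiset V → Multiset V → ℕ :=
    fun W J => cntX j q e (Real.exp 50 * H) (L Y') (W + J) J with hc'
  set B : Multiset V → ℝ := fun Y =>
    II j q n (fun W J => ind (L Y J) * (ind (¬ bad J) * Λ ^ c W J)) with hB
  have B0 : ∀ Y, 0 ≤ B Y := fun Y => by
    have := II_mono (j := j) h0 h1 n (f := fun W J => 0 * ind (L Y J))
      (g := fun W J => ind (L Y J) * (ind (¬ bad J) * Λ ^ c W J))
      fun W J _ => by rw [zero_mul]; exact mul_nonneg (i0 _) (mul_nonneg (i0 _) (by positivity))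
    rwa [II_mul, zero_mul] at this
  have B1 : Ex y B ≤ κ * (h * 2) := by
    rw [hB, II_Ex]
    refine (II_mono h0 h1 n (g := fun W J => κ * Λ ^ c W J) fun W J hJ => ?_).trans ?_
    · rw [Ex_mul']
      by_cases hb : bad J
      · rw [ind_neg (not_not.2 hb), zero_mul, mul_zero]; positivity
      · rw [ind_pos hb, one_mul]
        exact mul_le_mul_of_nonneg_right (hgood J hJ hb) (by positivity)
    · rw [II_mul]
      refine mul_le_mul_of_nonneg_left ((II_le hj h0 h1 n fun W =>
        coverG h0 hΛ1 (by positivity) hτ hc hjτ j le_rfl W).trans (by linarith)) hκ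
  have a1 : ∀ Y, ok Y → Real.exp (XX j q e H (L Y) (L Y') n 0 / 2)
      ≤ Real.exp (h * β / 2) * (1 + B Y / (h * d)) := fun Y hY => by
    have b1 := XX_init (e := e) (L := L Y) (L' := L Y') hj h0 h1 hH n
    have b2 : II j q n (fun W J => ind (L Y J) * (c W J : ℝ))
        ≤ II j q n (fun W J => j * (ind (L Y J) * ind (bad J))
          + 2 * j / (h * d) * (ind (L Y J) * ind (¬ bad J) * (c W J * (h * d / (2 * j))))) := by
      refine II_mono h0 h1 n fun W J hJ => ?_
      have c1 : (c W J : ℝ) ≤ j := by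
        classical
        exact_mod_cast hJ ▸ Multiset.countP_le_card _ _
      by_cases hb : bad J
      · rw [ind_pos hb, ind_neg (not_not.2 hb)]
        nlinarith [i0 (L Y J)]
      · rw [ind_neg hb, ind_pos hb]
        refine le_of_eq ?_
        field_simp
        ring
    rw [II_add, II_mul, II_mul] at b2
    have β0 : 0 ≤ β := (Ex_nonneg fun _ _ => mul_nonneg (i0 _) (i0 _)).trans (hok Y hY).2
    have b3 : II j q n (fun _ J => ind (L Y J) * ind (bad J)) ≤ h * β :=
      (II_le hj h0 h1 n fun _ => (hok Y hY).2).trans (mul_le_mul_of_nonneg_right hh β0)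
    have b4 := II_jensen (j := j) h0 h1 n (mul_pos hh0 hd)
      (fun _ J => ind (L Y J) * ind (¬ bad J)) (fun W J => c W J * (h * d / (2 * j)))
      (fun _ J => mul_nonneg (i0 _) (i0 _))
      ((II_le hj h0 h1 n fun _ => (Ex_mono fun J _ => mul_le_of_le_one_right (i0 _)
        (ind_le_one _)).trans (hok Y hY).1).trans (mul_le_mul_of_nonneg_right hh hd.le))
    have b5 : II j q n (fun W J => ind (L Y J) * ind (¬ bad J)
        * Real.exp (c W J * (h * d / (2 * j)))) ≤ B Y := by
      refine II_mono h0 h1 n fun W J _ => ?_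
      rw [mul_assoc, Real.exp_nat_mul]
      exact mul_le_mul_of_nonneg_left (mul_le_mul_of_nonneg_left
        (pow_le_pow_left₀ (Real.exp_pos _).le hΛ _) (i0 _)) (i0 _)
    generalize II j q n (fun W J => ind (L Y J) * ind (¬ bad J)
      * (c W J * (h * d / (2 * j)))) = A at b2 b4
    calc _ ≤ Real.exp (h * β / 2) * Real.exp (A / (h * d)) := by
          rw [← Real.exp_add, Real.exp_le_exp]
          refine le_of_mul_le_mul_left ?_ j0
          have b6 := mul_le_mul_of_nonneg_left b3 j0.le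
          have b7 : 2 * j / (h * d) * A = 2 * (j * (A / (h * d))) := by ring
          linarith
      _ ≤ _ := by
          refine mul_le_mul_of_nonneg_left (b4.trans ?_) (Real.exp_pos _).le
          gcongr
  calc _ ≤ Ex y (fun Y => Real.exp (h * β / 2) * (1 + (h * d)⁻¹ * B Y)) := by
        refine Ex_mono fun Y _ => ?_
        by_cases k : ok Y
        · rw [ind_pos k, one_mul, ← div_eq_inv_mul]; exact a1 Y k
        · rw [ind_neg k, zero_mul]
          have := B0 Y
          positivity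
    _ ≤ _ := by
        rw [Ex_mul, Ex_add, Ex_const, Ex_mul]
        refine mul_le_mul_of_nonneg_left ?_ (Real.exp_pos _).le
        have b1 := mul_le_mul_of_nonneg_left B1 (inv_nonneg.2 (mul_pos hh0 hd).le)
        have b2 : (h * d)⁻¹ * (κ * (h * 2)) = 2 * κ / d := by field_simp
        have b3 : Ex y (fun Y => B Y) = Ex y B := rfl
        linarith

end Pool.Agent.P.MP_7badbe_co
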