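import Pool.Agent.P.MP_7badbe_co.Gr.C

set_option autoImplicit false
set_option linter.unusedSectionVars false

open Finset Filter Topology
open scoped BigOperators

namespace Pool.Agent.P.MP_7badbe_co

variable {V : Type} [Fintype V] [Nonempty V]

/-- the numerical conditions of the lower bound for growing `j` -/
def ParG (j m : ℕ) (δ : ℝ) : Prop :=
  ∃ (y z n e M t : ℕ) (q eps ξ H τ ε₃ Λ h : ℝ),
    z + y + j = m + 1 ∧ y ≤ z ∧ 1 ≤ e ∧ 1 ≤ M ∧ M * j ≤ y + j ∧
    0 < q ∧ q < 1 ∧ (m : ℝ) < n * q ∧ 0 < δ ∧ 0 < eps ∧ 2 ≤ ξ ∧ 0 < H ∧ 0 ≤ τ ∧ 0 < ε₃ ∧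
    0 < h ∧ ((n + e).choose j : ℝ) * q ^ j ≤ h ∧
    8 * (√(n * q) + j * (h * ((1 + eps) * δ))) ≤ n * q - m ∧
    8 * (h * ((1 + eps) * δ)) ≤ H ∧
    (∀ r, 1 ≤ r → r ≤ j → Real.exp 50 * H ≤ τ ^ r * ((e.choose r : ℝ) * q ^ r)) ∧
    j * (Λ * τ) ≤ 1 / 4 ∧ Real.exp (h * ((1 + eps) * δ) / (2 * j)) ≤ Λ ∧
    1 / ξ + (t / M + 2 ^ M / (ξ ^ t * M * δ)) / ε₃ ≤ eps / (1 + eps) / 8 ∧
    z * δ * (Real.exp (h * ((1 + eps) * δ) / 2 + n * q ^ 2 / (1 - q))
      * (Real.exp (h * (ε₃ * δ) / 2) * (1 + 2 * ξ ^ 2))) < (eps / (1 + eps) / 4) ^ 2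

lemma pairG' {j e m n : ℕ} {q H d h : ℝ} {L L' : Multiset V → Prop} (hj : 1 ≤ j) (he : 1 ≤ e)
    (h0 : 0 ≤ q) (h1 : q < 1) (hH : 0 < H) (hh : ((n + e).choose j : ℝ) * q ^ j ≤ h)
    (hd : Ex j (fun J => ind (L J)) ≤ d) (hd' : Ex j (fun J => ind (L' J)) ≤ d) :
    nu2 q (rhoG j q e L) (rhoG j q e L') n 0 (fun W => PsiG j q e m H L W * PsiG j q e m H L' W)
      ≤ Real.exp (h * d / 2 + n * q ^ 2 / (1 - q)) * Real.exp (XX j q e H L L' n 0 / 2) := by
  refine le_trans (nu2_mono h0 h1 (rhoG_mem h0) (rhoG_mem h0) n fun W _ => ?_)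
    ((pairG hj he h0 h1 hH n 0).trans ?_)
  · unfold PsiG
    rw [← ind_and]
    refine ind_mono fun k => ?_
    have := k.2.2
    rwa [Pot_eq_PP, zero_add] at this
  · have a1 : ∀ K : Multiset V → Prop, Ex j (fun J => ind (K J)) ≤ d →
        Pot j q e (gL K) n 0 ≤ h * d := fun K hK => by
      rw [Pot_nil hj, GG_gL K (show (0 : Multiset V).card < j from hj)]
      simp only [Multiset.card_zero, Nat.sub_zero, zero_add]
      exact mul_le_mul hh hK (Ex_nonneg fun _ _ => ind_nonneg _) (le_trans (by positivity) hh)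
    rw [← Real.exp_add, Real.exp_le_exp]
    linarith [a1 L hd, a1 L' hd']

theorem masterG {i j m : ℕ} (hj : 1 ≤ j) (hi : i + j = m + 1) {δ : ℝ} (hP : ParG j m δ)
    (g : Multiset V → Prop) (hg : Hit i m g) : δ < Ex (m + 1) (fun M => ind (g M)) := by
  obtain ⟨y, z, n, e, M, t, q, eps, ξ, H, τ, ε₃, Λ, h, p1, p2, p3, p4, p5, p6, h1, p8, p10,
    p11, p12, p15, p16, p17, hh0, hh, c3, c4, c5, c6, c9, c7, c10⟩ := hP
  by_contra hδ
  rw [not_lt] at hδ
  set d := (1 + eps) * δ with hd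
  set p0 := eps / (1 + eps) with hp0
  have hd0 : 0 < d := by positivity
  have hp00 : 0 < p0 := by positivity
  have hiz : z + y = i := by omega
  have hhd := mul_le_mul_of_nonneg_right hh hd0.le
  -- the planted masses
  set A : Multiset V → Multiset V → ℝ := fun S Z => ind (Ex j (fun J => ind (g (S + J))) ≤ d) *
    nu1 q (rhoG j q e (fun J => g (S + J))) n 0
      (fun W => PsiG j q e m H (fun J => g (S + J)) W * HH g m Z W) with hA
  have hPsi0 : ∀ (L : Multiset V → Prop) W, 0 ≤ PsiG j q e m H L W := fun _ _ => ind_nonneg _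
  have hPsi1 : ∀ (L : Multiset V → Prop) W, PsiG j q e m H L W ≤ 1 := fun _ _ => ind_le_one _
  have A1 : ∀ S Z Z', A S Z ≤ A S (Z + Z') := fun S Z Z' =>
    mul_le_mul_of_nonneg_left (nuG_mono p6.le h1 fun W =>
      mul_le_mul_of_nonneg_left (HH_mono _ _ _ _ _) (hPsi0 _ _)) (ind_nonneg _)
  have A2 : ∀ S Z Y, A S (Z + Y) ≤ A S Z + A S Y := fun S Z Y => by
    simp only [hA]
    rw [← mul_add, ← nu1_add]
    refine mul_le_mul_of_nonneg_left (nuG_mono p6.le h1 fun W => ?_) (ind_nonneg _)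
    rw [← mul_add]
    exact mul_le_mul_of_nonneg_left (HH_add _ _ _ _ _) (hPsi0 _ _)
  have A3 : ∀ S : Multiset V, S.card = i →
      3 / 4 * (1 - ind (d < Ex j (fun J => ind (g (S + J))))) ≤ A S S := fun S hS => by
    simp only [hA]
    by_cases k : Ex j (fun J => ind (g (S + J))) ≤ d
    · rw [ind_pos k, ind_neg (not_lt.2 k), one_mul, sub_zero, mul_one]
      refine (goodG (e := e) (m := m) hj p6.le h1 p8 p15 k
        (by linarith [mul_le_mul_of_nonneg_left hhd (Nat.cast_nonneg (α := ℝ) j)])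
        (by linarith)).trans ?_
      refine nu1_mono p6.le h1 (rhoG_mem p6.le) (IndT j (fun J => g (S + J)))
        (fun _ _ _ hT hx => indT_stepG hj hT hx) n (fun J hJ hc => ?_) (fun W hW => ?_)
      · rw [Multiset.le_zero.1 hJ] at hc
        simp at hc; omega
      · unfold PsiG
        by_cases k2 : m ≤ W.card ∧ Pot j q e (gL fun J => g (S + J)) 0 W ≤ H
        · rw [ind_pos k2, one_mul]; exact HH_full hi hg hS hW k2.1
        · rw [ind_neg k2, zero_mul]
    · rw [ind_neg k, ind_pos (not_le.1 k)]; simp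
  have A4 : 3 / 4 * p0 ≤ Ex z (fun Z => Ex y (fun Y => A (Z + Y) (Z + Y))) := by
    rw [← Ex_split z y (fun S => A S S), hiz]
    refine le_trans ?_ (Ex_mono A3)
    rw [Ex_mul, Ex_sub, Ex_const]
    have k1 := Ex_markov (m := i) (F := fun S : Multiset V => Ex j (fun J => ind (g (S + J))))
      (fun _ => Ex_nonneg fun _ _ => ind_nonneg _) hd0
    rw [← Ex_split i j (fun M => ind (g M)), hi] at k1
    have k2 : Ex (m + 1) (fun M => ind (g M)) / d ≤ 1 - p0 := by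
      rw [div_le_iff₀ hd0, hp0, hd]
      have : (1 - eps / (1 + eps)) * ((1 + eps) * δ) = δ := by field_simp; ring
      linarith
    linarith
  have A5 : 3 / 8 * p0 ≤ Ex z (fun Z => Ex y (fun Y => A (Z + Y) Z)) := by
    have k1 : Ex z (fun Z => Ex y (fun Y => A (Z + Y) (Z + Y)))
        ≤ Ex z (fun Z => Ex y (fun Y => A (Z + Y) Z))
          + Ex z (fun Z => Ex y (fun Y => A (Z + Y) Y)) := by
      rw [← Ex_add]
      refine Ex_mono fun Z _ => ?_
      rw [← Ex_add]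
      exact Ex_mono fun Y _ => A2 _ _ _
    linarith [Mas_swap p2 A A1]
  -- good splits
  set bad : Multiset V → Multiset V → Prop := fun Z J =>
    ξ ^ 2 * δ < Ex y (fun Y' => ind (g (Z + Y' + J))) with hbad
  set ok : Multiset V → Multiset V → Prop := fun Z Y =>
    Ex j (fun J => ind (g (Z + Y + J))) ≤ d ∧
      Ex j (fun J => ind (g (Z + Y + J)) * ind (bad Z J)) ≤ ε₃ * δ with hok
  set Φ : Multiset V → Multiset V → Multiset V → ℝ := fun Z Y W =>
    ind (ok Z Y) * PsiG j q e m H (fun J => g (Z + Y + J)) W with hΦ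
  have B1 : p0 / 4 ≤ Ex z (fun Z => Ex y (fun Y => nu1 q (rhoG j q e (fun J => g (Z + Y + J))) n 0
      (fun W => Φ Z Y W * HH g m Z W))) := by
    have k1 := bad_split (t := t) p4 p5 p10 p12 p17 g (by rw [p1]; exact hδ)
    have k2 : Ex z (fun Z => Ex y (fun Y => A (Z + Y) Z)) ≤ Ex z (fun Z => Ex y (fun Y =>
        nu1 q (rhoG j q e (fun J => g (Z + Y + J))) n 0 (fun W => Φ Z Y W * HH g m Z W)))
        + Ex z (fun Z => Ex y (fun Y => ind (ε₃ * δ < Ex j (fun J => ind (g (Z + Y + J))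
          * ind (bad Z J))))) := by
      rw [← Ex_add]
      refine Ex_mono fun Z _ => ?_
      rw [← Ex_add]
      refine Ex_mono fun Y _ => ?_
      simp only [hA, hΦ, mul_assoc]
      rw [nu1_mul]
      have k3 : nu1 q (rhoG j q e (fun J => g (Z + Y + J))) n 0
          (fun W => PsiG j q e m H (fun J => g (Z + Y + J)) W * HH g m Z W) ≤ 1 := by
        rw [← nu1_const (V := V) (ρ := rhoG j q e (fun J => g (Z + Y + J))) h1 n 0 1]
        exact nuG_mono p6.le h1 fun W =>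
          mul_le_one₀ (hPsi1 _ _) (HH_nonneg _ _ _ _) (HH_le_one _ _ _ _)
      have k4 : 0 ≤ nu1 q (rhoG j q e (fun J => g (Z + Y + J))) n 0
          (fun W => PsiG j q e m H (fun J => g (Z + Y + J)) W * HH g m Z W) := by
        rw [← nu1_const (V := V) (ρ := rhoG j q e (fun J => g (Z + Y + J))) h1 n 0 0]
        exact nuG_mono p6.le h1 fun W => mul_nonneg (hPsi0 _ _) (HH_nonneg _ _ _ _)
      by_cases k5 : Ex j (fun J => ind (g (Z + Y + J))) ≤ d
      · by_cases k6 : Ex j (fun J => ind (g (Z + Y + J)) * ind (bad Z J)) ≤ ε₃ * δ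
        · rw [ind_pos k5, ind_pos (P := ok Z Y) ⟨k5, k6⟩]
          linarith [ind_nonneg (ε₃ * δ < Ex j (fun J => ind (g (Z + Y + J)) * ind (bad Z J)))]
        · rw [ind_pos k5, ind_pos (not_le.1 k6)]
          nlinarith [ind_nonneg (ok Z Y)]
      · rw [ind_neg k5, zero_mul]
        exact add_nonneg (mul_nonneg (ind_nonneg _) k4) (ind_nonneg _)
    linarith
  -- second moment
  set Bd := Real.exp (h * d / 2 + n * q ^ 2 / (1 - q))
      * (Real.exp (h * (ε₃ * δ) / 2) * (1 + 2 * ξ ^ 2)) with hBd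
  have hBd0 : 0 < Bd := by positivity
  have B2 : ∀ Z, Ex y (fun Y => Ex y (fun Y' => nu2 q (rhoG j q e (fun J => g (Z + Y + J)))
      (rhoG j q e (fun J => g (Z + Y' + J))) n 0 (fun W => Φ Z Y W * Φ Z Y' W))) ≤ Bd := by
    intro Z
    rw [Ex_comm]
    refine Ex_le fun Y' _ => ?_
    have k0 : (n.choose j : ℝ) * q ^ j ≤ h := le_trans (mul_le_mul_of_nonneg_right
      (by exact_mod_cast Nat.choose_le_choose _ (Nat.le_add_right n e)) (by positivity)) hh
    have k1 := startG (y := y) (β := ε₃ * δ) hj p6.le h1.le p15 k0 hh0 hd0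
      (show 0 ≤ ξ ^ 2 * δ by positivity) c9 p16 c5 c6 (fun Y J => g (Z + Y + J)) (bad Z)
      (fun J _ hJ => not_lt.1 hJ) (ok Z) (fun Y hY => hY) Y'
    have k2 : 2 * (ξ ^ 2 * δ) / d ≤ 2 * ξ ^ 2 := by
      rw [div_le_iff₀ hd0, hd]
      have : 0 ≤ ξ ^ 2 * (eps * δ) := by positivity
      nlinarith
    have k3 : Real.exp (h * (ε₃ * δ) / 2) * (1 + 2 * (ξ ^ 2 * δ) / d)
        ≤ Real.exp (h * (ε₃ * δ) / 2) * (1 + 2 * ξ ^ 2) := by gcongr
    refine le_trans ?_ (mul_le_mul_of_nonneg_left (k1.trans k3) (by positivity))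
    rw [← Ex_mul]
    refine Ex_mono fun Y _ => ?_
    have k4 : (fun W => Φ Z Y W * Φ Z Y' W) = fun W => ind (ok Z Y) * ind (ok Z Y') *
        (PsiG j q e m H (fun J => g (Z + Y + J)) W
          * PsiG j q e m H (fun J => g (Z + Y' + J)) W) := by
      funext W; simp only [hΦ]; ring
    rw [k4, nu2_mul, ← ind_and]
    by_cases k5 : ok Z Y ∧ ok Z Y'
    · rw [ind_pos k5, ind_pos k5.1, one_mul, one_mul]
      exact pairG' hj p3 p6.le h1 p15 hh k5.1.1 k5.2.1
    · rw [ind_neg k5, zero_mul]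
      exact mul_nonneg (Real.exp_pos _).le (mul_nonneg (ind_nonneg _) (Real.exp_pos _).le)
  have ht : 0 < p0 / 4 / Bd := by positivity
  have B3 : Ex z (fun Z => Ex y (fun Y => nu1 q (rhoG j q e (fun J => g (Z + Y + J))) n 0
      (fun W => Φ Z Y W * HH g m Z W)))
      ≤ p0 / 4 / Bd / 2 * Bd + 1 / (2 * (p0 / 4 / Bd)) * (z * δ) := by
    refine le_trans (Ex_mono (G := fun Z => p0 / 4 / Bd / 2 * Bd + 1 / (2 * (p0 / 4 / Bd))
      * En q n 0 (fun W => HH g m Z W ^ 2)) fun Z _ => ?_) ?_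
    · refine (amgm p6.le h1 (fun Y => rhoG j q e (fun J => g (Z + Y + J))) (Φ Z) (HH g m Z) y n
        ht).trans ?_
      gcongr
      exact B2 Z
    · rw [Ex_add, Ex_const, Ex_mul]
      gcongr
      exact HH_null p6.le h1.le g m z n hδ
  have B4 : p0 / 4 / Bd / 2 * Bd = p0 / 8 := by field_simp; ring
  have B5 : 1 / (2 * (p0 / 4 / Bd)) * (z * δ) = z * δ * Bd * (2 / p0) := by field_simp; ring
  have B6 : z * δ * Bd * (2 / p0) < (p0 / 4) ^ 2 * (2 / p0) :=
    mul_lt_mul_of_pos_right c10 (by positivity)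
  have B7 : (p0 / 4) ^ 2 * (2 / p0) = p0 / 8 := by field_simp; ring
  linarith

end Pool.Agent.P.MP_7badbe_co
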