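import Pool.Agent.P.MP_7badbe_co.Gr.D

set_option autoImplicit false
set_option linter.unusedSectionVars false

open Finset Filter Topology
open scoped BigOperators

namespace Pool.Agent.P.MP_7badbe_co

lemma gr_choose_ge (n r : ℕ) {b : ℝ} (hb : 0 ≤ b) (h : b + r ≤ n) :
    b ^ r / r.factorial ≤ n.choose r := by
  refine le_trans ?_ (Nat.pow_le_choose r n)
  have h1 : r ≤ n + 1 := by
    have : (r : ℝ) ≤ n := by linarith
    have : r ≤ n := by exact_mod_cast this
    omega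
  gcongr
  rw [Nat.cast_sub h1]
  push_cast
  linarith

lemma gr_choose_ge' (n r : ℕ) {b s : ℝ} (hb : 0 ≤ b) (h : b + r ≤ n) (hs : r ≤ s) :
    (b / s) ^ r ≤ n.choose r := by
  refine le_trans ?_ (gr_choose_ge n r hb h)
  have h1 : (r.factorial : ℝ) ≤ s ^ r := by
    refine le_trans ?_ (pow_le_pow_left₀ (Nat.cast_nonneg r) hs r)
    exact_mod_cast Nat.factorial_le_pow r
  rw [div_pow]
  exact div_le_div_of_nonneg_left (by positivity) (by positivity) h1

lemma gr_ratio {k a j : ℕ} {η : ℝ} (hη : 0 < η) (hη1 : η ≤ 1) (hj : (j : ℝ) < k)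
    (h : (j : ℝ) * ((2 * a + j) / (k - j)) ≤ η / 2) :
    ((k * (k + a) + k * a).choose j : ℝ) * (1 / (k : ℝ)) ^ j ≤ (1 + η) * k.choose j := by
  have k0 : (0 : ℝ) < k := lt_of_le_of_lt (Nat.cast_nonneg _) hj
  have d0 : (0 : ℝ) < k - j := by linarith
  set w : ℝ := (2 * a + j) / (k - j) with hw
  have w0 : 0 ≤ w := by positivity
  have a1 : ((k * (k + a) + k * a).choose j : ℝ) ≤ (k * ((1 + w) * (k - j))) ^ j / j.factorial := by
    refine (Nat.choose_le_pow_div j _).trans (le_of_eq ?_)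
    congr 2
    rw [hw]
    push_cast
    field_simp
    ring
  have a2 : (1 + w) ^ j ≤ 1 + η := by
    have b1 : (1 + w) ^ j ≤ Real.exp (η / 2) := by
      refine (pow_le_pow_left₀ (by positivity) (show 1 + w ≤ Real.exp w by
        linarith [Real.add_one_le_exp w]) j).trans ?_
      rw [← Real.exp_nat_mul]
      exact Real.exp_le_exp.2 h
    have b2 := Rho_one_sub (η / 2)
    have b3 := Real.exp_pos (η / 2)
    refine b1.trans (le_of_mul_le_mul_left (b2.trans ?_) (show 0 < 1 - η / 2 by linarith))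
    nlinarith
  have a3 := gr_choose_ge k j d0.le (by linarith)
  calc _ ≤ (k * ((1 + w) * (k - j))) ^ j / j.factorial * (1 / (k : ℝ)) ^ j := by gcongr
    _ = (1 + w) ^ j * ((k - j) ^ j / j.factorial) := by
        rw [mul_pow, mul_pow, one_div, inv_pow]
        field_simp
    _ ≤ _ := by gcongr

theorem parG_main {j m N : ℕ} {ε R : ℝ} (hε : 0 < ε) (hε1 : ε ≤ 1 / 2) (hN : 20 ≤ N * ε)
    (hK : R ^ N = (m : ℝ) + 1) (hR1 : 128 * Real.exp 50 * N ≤ R) (hR2 : 4 ^ (8 * N ^ 2) ≤ R)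
    (hR3 : 72 * (N : ℝ) ^ 2 ≤ R) (hj : N ≤ j) (hjR : j ≤ R) :
    ParG j m ((2 - 2 * ε) * j * Real.log (m + 1) / (m + 1).choose j) := by
  have N0 : (0 : ℝ) ≤ N := Nat.cast_nonneg _
  have N40 : (40 : ℝ) ≤ N := by linarith only [hN, mul_le_mul_of_nonneg_left hε1 N0]
  have N40' : 40 ≤ N := by exact_mod_cast N40
  have E50 : (51 : ℝ) ≤ Real.exp 50 := by linarith only [Real.add_one_le_exp 50]
  have RN : 6528 * (N : ℝ) ≤ R := by linarith only [hR1, mul_le_mul_of_nonneg_right E50 N0]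
  have R1 : (1000 : ℝ) ≤ R := by linarith only [RN, N40]
  have R0 : 0 < R := by linarith only [R1]
  have Rε : 100000 ≤ R * ε := by linarith only [hN, mul_le_mul_of_nonneg_right RN hε.le]
  have j1 : (40 : ℝ) ≤ j := N40.trans (by exact_mod_cast hj)
  have j0 : (0 : ℝ) < j := by linarith only [j1]
  obtain ⟨K, hKdef⟩ : ∃ K : ℝ, K = (m : ℝ) + 1 := ⟨_, rfl⟩
  rw [← hKdef] at hK ⊢
  have hKc : ((m + 1 : ℕ) : ℝ) = K := by push_cast; exact hKdef.symm
  have KR : R ^ 8 ≤ K := hK ▸ pow_le_pow_right₀ (by linarith only [R1]) (by omega)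
  have pp : ∀ s : ℕ, 1000 * R ^ s ≤ R ^ (s + 1) := fun s => by
    rw [pow_succ']; exact mul_le_mul_of_nonneg_right R1 (by positivity)
  have p2 : 1000 * R ≤ R ^ 2 := by simpa using pp 1
  have p3 : 1000 * R ^ 2 ≤ R ^ 3 := pp 2
  have p4 : 1000 * R ^ 3 ≤ R ^ 4 := pp 3
  have p5 : 1000 * R ^ 4 ≤ R ^ 5 := pp 4
  have p6 : 1000 * R ^ 5 ≤ R ^ 6 := pp 5
  have p7 : 1000 * R ^ 6 ≤ R ^ 7 := pp 6
  have p8 : 1000 * R ^ 7 ≤ R ^ 8 := pp 7
  have q3 : 1000 * R ≤ R ^ 3 := by linarith only [p2, p3, R1]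
  have q4 : 1000 * R ≤ R ^ 4 := by linarith only [p2, p3, p4, R1]
  have q6 : 1000 * R ^ 4 ≤ R ^ 6 := by linarith only [p5, p6, q4, R1]
  have q8 : 1000 * R ^ 3 ≤ K := by linarith only [KR, p8, p7, q6, p4, q3, R1]
  have RK : 1000 * R ≤ K := by linarith only [q8, q3, R1]
  have K0 : 0 < K := by linarith only [RK, R1]
  have Kε : 100000 ≤ ε * K := by
    linarith only [Rε, mul_le_mul_of_nonneg_right (show R ≤ K by linarith only [RK, R1]) hε.le]
  obtain ⟨x, hx⟩ : ∃ x, x = Real.log K := ⟨_, rfl⟩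
  rw [← hx]
  have xR : x = N * Real.log R := by rw [hx, ← hK, Real.log_pow]
  have lR : 1 ≤ Real.log R := by
    rw [Real.le_log_iff_exp_le R0]; linarith only [Real.exp_one_lt_d9, R1]
  have x1 : 1 ≤ x := by rw [xR]; linarith only [mul_le_mul_of_nonneg_left lR N0, N40]
  have xN : x ≤ N * R := by
    rw [xR]; exact mul_le_mul_of_nonneg_left (by linarith only [Real.log_le_sub_one_of_pos R0]) N0
  have x2 : x ≤ R ^ 2 / 6528 := by linarith only [xN, mul_le_mul_of_nonneg_right RN R0.le]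
  have jm : j ≤ m + 1 := by
    have : (j : ℝ) ≤ ((m + 1 : ℕ) : ℝ) := by rw [hKc]; linarith only [hjR, RK, R1]
    exact_mod_cast this
  obtain ⟨C, hC⟩ : ∃ C : ℝ, C = (((m + 1).choose j : ℕ) : ℝ) := ⟨_, rfl⟩
  rw [← hC]
  have C0 : 0 < C := by rw [hC]; exact_mod_cast Nat.choose_pos jm
  have CK : C ≤ K ^ j := by rw [hC, ← hKc]; exact_mod_cast Nat.choose_le_pow _ _
  obtain ⟨a, ha⟩ : ∃ a, a = ⌈K / R ^ 2⌉₊ := ⟨_, rfl⟩
  have a1 : K / R ^ 2 ≤ a := ha ▸ Nat.le_ceil _
  have a0 : R ^ 6 ≤ K / R ^ 2 := by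
    rw [le_div_iff₀ (by positivity), ← pow_add]; exact KR
  have a2 : (a : ℝ) ≤ 2 * (K / R ^ 2) := by
    have := Nat.ceil_lt_add_one (show 0 ≤ K / R ^ 2 by positivity)
    rw [← ha] at this
    linarith only [this, a0, q6, q4, R1]
  have a3 : 2 * (K / R ^ 2) ≤ K := by
    rw [← mul_div_assoc, div_le_iff₀ (by positivity), mul_comm]
    exact mul_le_mul_of_nonneg_left (by linarith only [p2, R1]) K0.le
  have a4 : (1 : ℝ) ≤ a := by linarith only [a1, a0, q6, q4, R1]
  obtain ⟨u, hu⟩ : ∃ u, u = (j : ℝ) * x := ⟨_, rfl⟩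
  have u1 : 1 ≤ u := by rw [hu]; exact one_le_mul_of_one_le_of_one_le (by linarith only [j1]) x1
  have u2 : u ≤ R ^ 3 / 6528 := by
    calc u ≤ R * (R ^ 2 / 6528) := by rw [hu]; gcongr
      _ = _ := by ring
  obtain ⟨δ, hδ⟩ : ∃ δ, δ = (2 - 2 * ε) * j * x / C := ⟨_, rfl⟩
  rw [← hδ]
  have δC : δ * C = (2 - 2 * ε) * u := by rw [hδ, hu]; field_simp
  have δC1 : 1 ≤ δ * C := δC ▸ one_le_mul_of_one_le_of_one_le (by linarith only [hε1]) u1
  have δ0 : 0 < δ := (mul_pos_iff_of_pos_right C0).1 (lt_of_lt_of_le one_pos δC1)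
  have μ1 : (1 + ε / 8) * C * ((1 + ε / 8) * δ) ≤ (2 - 3 / 2 * ε) * u := by
    rw [show (1 + ε / 8) * C * ((1 + ε / 8) * δ) = (1 + ε / 8) ^ 2 * (δ * C) by ring, δC,
      ← mul_assoc]
    refine mul_le_mul_of_nonneg_right ?_ (by linarith only [u1])
    nlinarith only [sq_nonneg ε, mul_pos hε (mul_pos hε hε)]
  have μ2 : (1 + ε / 8) * C * (ε / 8 * δ) ≤ ε / 2 * u := by
    rw [show (1 + ε / 8) * C * (ε / 8 * δ) = (1 + ε / 8) * (ε / 8) * (δ * C) by ring, δC,
      ← mul_assoc]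
    refine mul_le_mul_of_nonneg_right ?_ (by linarith only [u1])
    nlinarith only [hε, sq_nonneg ε, mul_pos hε (mul_pos hε hε)]
  have εu : 0 ≤ ε * u := by positivity
  obtain ⟨Λ, hΛ⟩ : ∃ Λ, Λ = Real.exp ((1 - ε / 2) * x) := ⟨_, rfl⟩
  have Λ0 : 0 < Λ := hΛ ▸ Real.exp_pos _
  have ΛK : Λ * R ^ 10 ≤ K := by
    rw [← Real.exp_log (pow_pos R0 10), Real.log_pow, hΛ, ← Real.exp_add, ← Real.exp_log K0,
      Real.exp_le_exp, ← hx]
    push_cast
    have := mul_le_mul_of_nonneg_right hN (zero_le_one.trans lR)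
    rw [xR]
    linarith only [this]
  have nq : (((m + 1) * (m + 1 + a) : ℕ) : ℝ) * (1 / K) = K + a := by
    push_cast; rw [← hKdef]; field_simp
  have hp0 : ε / 16 ≤ ε / 8 / (1 + ε / 8) := by
    rw [le_div_iff₀ (by positivity)]; nlinarith only [hε, hε1]
  obtain ⟨Q, hQ'⟩ : ∃ Q, Q = 8 * N ^ 2 := ⟨_, rfl⟩
  rw [← hQ'] at hR2
  have hQ : 3072 ≤ (Q : ℝ) * ε ^ 2 := by
    rw [hQ']; push_cast; linarith only [pow_le_pow_left₀ (by norm_num) hN 2]
  have QR : 9 * (Q : ℝ) ≤ R := by rw [hQ']; push_cast; linarith only [hR3]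
  have Q0 : (0 : ℝ) < Q := by rw [hQ']; positivity
  refine ⟨(m + 1 - j) / 2, m + 1 - j - (m + 1 - j) / 2, (m + 1) * (m + 1 + a), (m + 1) * a,
    (2 * j + 2) * Q, 2 * j + 2, 1 / K, ε / 8, K, 16 * u,
    2 * j * (Real.exp 50 * (16 * u)) / a, ε / 8, Λ, (1 + ε / 8) * C,
    by omega, by omega, ?_, ?_, ?_, by positivity, ?_, ?_, δ0, by positivity,
    by linarith only [RK, R1], by positivity, by positivity, by positivity, by positivity, ?_, ?_,
    by linarith only [μ1, εu], ?_, ?_, ?_, ?_, ?_⟩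
  · exact Nat.mul_pos (by omega) (by exact_mod_cast a4)
  · exact Nat.mul_pos (by omega) (by exact_mod_cast Q0)
  · have b1 : (((2 * j + 2) * Q * j * 2 + 1 : ℕ) : ℝ) ≤ ((m + 1 : ℕ) : ℝ) := by
      rw [hKc]
      push_cast
      calc (2 * (j : ℝ) + 2) * Q * j * 2 + 1 ≤ (4 * R) * R * R * 2 + 1 := by
            gcongr
            · linarith only [hjR, R1]
            · linarith only [QR, Q0]
        _ ≤ K := by linarith only [q8, q3, R1]
    have b2 : (2 * j + 2) * Q * j * 2 + 1 ≤ m + 1 := by exact_mod_cast b1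
    omega
  · rw [div_lt_one K0]; linarith only [RK, R1]
  · rw [nq]; linarith only [hKdef, a4]
  · have := gr_ratio (k := m + 1) (a := a) (j := j) (η := ε / 8) (by positivity)
      (by linarith only [hε1]) (by rw [hKc]; linarith only [hjR, RK, R1]) (by
        rw [hKc, ← mul_div_assoc, div_le_iff₀ (by linarith only [hjR, RK, R1])]
        have b1 : (j : ℝ) * (2 * a + j) ≤ R * (5 * (K / R ^ 2)) := by
          gcongr; linarith only [a2, a0, q6, q4, hjR, R1]
        have b2 : R * (5 * (K / R ^ 2)) = 5 / R * K := by field_simp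
        have b3 : 5 / R ≤ ε / 32 := by rw [div_le_iff₀ R0]; linarith only [Rε]
        have b4 := mul_le_mul_of_nonneg_right b3 K0.le
        have b5 := mul_le_mul_of_nonneg_left
          (show K / 2 ≤ K - j by linarith only [hjR, RK, R1]) hε.le
        linarith only [b1, b2, b4, b5])
    rwa [hKc, ← hC] at this
  · rw [nq]
    have b1 : √(K + a) ≤ a / 16 := by
      rw [Real.sqrt_le_left (by positivity)]
      have b2 : K / R ^ 2 * R ^ 6 ≤ (a : ℝ) * a := by gcongr; linarith only [a0, a1]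
      have b3 : K / R ^ 2 * R ^ 6 = K * R ^ 4 := by field_simp
      have b4 := mul_le_mul_of_nonneg_left (show 1000 ≤ R ^ 4 by linarith only [q4, R1]) K0.le
      linarith only [b2, b3, b4, a2, a3, K0]
    have b4 : (j : ℝ) * ((1 + ε / 8) * C * ((1 + ε / 8) * δ)) ≤ R * (2 * u) :=
      mul_le_mul hjR (by linarith only [μ1, εu]) (by positivity) R0.le
    have b5 : R * (2 * u) ≤ R * (2 * (R ^ 3 / 6528)) := by gcongr
    linarith only [b1, b4, b5, hKdef, a0, a1, q6, q4, R1]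
  · intro r hr hrj
    have b0 : (r : ℝ) ≤ j := by exact_mod_cast hrj
    have b1 := gr_choose_ge' ((m + 1) * a) r (b := K * a / 2) (s := j) (by positivity)
      (by
        push_cast; rw [← hKdef]
        linarith only [mul_le_mul_of_nonneg_left a4 K0.le, b0, hjR, RK, R1]) b0
    have b2 : 1 ≤ Real.exp 50 * (16 * u) :=
      one_le_mul_of_one_le_of_one_le (by linarith only [E50]) (by linarith only [u1])
    calc _ ≤ (Real.exp 50 * (16 * u)) ^ r := le_self_pow₀ b2 (by omega)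
      _ = (2 * j * (Real.exp 50 * (16 * u)) / a) ^ r
          * ((K * a / 2 / j) ^ r * (1 / K) ^ r) := by
          rw [← mul_pow, ← mul_pow]
          congr 1
          field_simp
      _ ≤ _ := by gcongr
  · have b1 : Λ ≤ K / R ^ 10 := by rwa [le_div_iff₀ (by positivity)]
    have b2 : u ≤ R * (N * R) := by rw [hu]; gcongr
    calc _ ≤ R * (K / R ^ 10 * (2 * R * (Real.exp 50 * (16 * (R * (N * R)))) / (K / R ^ 2))) := by
          gcongr
      _ = 128 * Real.exp 50 * N / R ^ 4 / 4 := by field_simp; norm_num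
      _ ≤ _ := by
          refine div_le_div_of_nonneg_right ?_ (by norm_num)
          rw [div_le_one (by positivity)]; linarith only [hR1, q4, R1]
  · rw [hΛ, Real.exp_le_exp, div_le_iff₀ (by positivity)]
    rw [hu] at μ1 εu
    linarith only [μ1, εu]
  · have b1 : ((2 * j + 2 : ℕ) : ℝ) / (((2 * j + 2) * Q : ℕ) : ℝ) = 1 / Q := by
      push_cast; field_simp
    have b2 : (2 : ℝ) ^ ((2 * j + 2) * Q) / (K ^ (2 * j + 2) * (((2 * j + 2) * Q : ℕ) : ℝ) * δ)
        ≤ 1 / Q := by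
      have c1 : (2 : ℝ) ^ ((2 * j + 2) * Q) ≤ K ^ (j + 1) := by
        rw [show (2 * j + 2) * Q = 2 * Q * (j + 1) by ring, pow_mul, pow_mul]
        refine pow_le_pow_left₀ (by positivity) ?_ _
        rw [show (2 : ℝ) ^ 2 = 4 by norm_num]
        linarith only [hR2, RK, R1]
      have c2 : 1 ≤ δ * K ^ j := δC1.trans (mul_le_mul_of_nonneg_left CK δ0.le)
      push_cast
      rw [div_le_div_iff₀ (by positivity) Q0, one_mul]
      calc _ ≤ K ^ (j + 1) * Q * 1 * 1 * 1 := by rw [mul_one, mul_one, mul_one]; gcongr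
        _ ≤ K ^ (j + 1) * Q * (δ * K ^ j) * K * (2 * j + 2) := by
            gcongr
            · linarith only [RK, R1]
            · linarith only [j1]
        _ = _ := by ring
    have b3 : 1 / K ≤ ε / 384 := by
      rw [div_le_iff₀ K0]; linarith only [Kε]
    have b4 : (1 / Q + 1 / Q) / (ε / 8) ≤ ε / 192 := by
      rw [div_le_iff₀ (by positivity), ← add_div, div_le_iff₀ Q0]; linarith only [hQ]
    rw [b1]
    have b5 : (1 / Q + (2 : ℝ) ^ ((2 * j + 2) * Q)
        / (K ^ (2 * j + 2) * (((2 * j + 2) * Q : ℕ) : ℝ) * δ)) / (ε / 8)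
        ≤ (1 / Q + 1 / Q) / (ε / 8) := by gcongr
    linarith only [b3, b4, b5, hp0]
  · have b1 : (((m + 1) * (m + 1 + a) : ℕ) : ℝ) * (1 / K) ^ 2 / (1 - 1 / K) ≤ 4 := by
      rw [sq, ← mul_assoc, nq,
        div_le_iff₀ (by rw [sub_pos, div_lt_one K0]; linarith only [RK, R1]),
        mul_one_div, div_le_iff₀ K0, mul_assoc, sub_mul, one_div_mul_cancel K0.ne']
      linarith only [a2, a3, RK, R1]
    have b2 : Real.exp ((1 + ε / 8) * C * ((1 + ε / 8) * δ) / 2
          + (((m + 1) * (m + 1 + a) : ℕ) : ℝ) * (1 / K) ^ 2 / (1 - 1 / K))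
        * Real.exp ((1 + ε / 8) * C * (ε / 8 * δ) / 2) ≤ Λ ^ j * 81 := by
      have c1 : Real.exp 4 ≤ 81 := by
        rw [show (4 : ℝ) = (4 : ℕ) * 1 by norm_num, Real.exp_nat_mul]
        exact (pow_le_pow_left₀ (Real.exp_pos 1).le (show Real.exp 1 ≤ 3 by
          linarith only [Real.exp_one_lt_d9]) 4).trans (by norm_num)
      refine le_trans ?_ (mul_le_mul_of_nonneg_left c1 (by positivity))
      rw [hΛ, ← Real.exp_nat_mul, ← Real.exp_add, ← Real.exp_add, Real.exp_le_exp]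
      have c2 : (j : ℝ) * ((1 - ε / 2) * x) = (1 - ε / 2) * u := by rw [hu]; ring
      linarith only [b1, μ1, μ2, c2]
    have b3 : ((m + 1 - j - (m + 1 - j) / 2 : ℕ) : ℝ) ≤ K := by
      rw [← hKc]; exact_mod_cast (by omega : m + 1 - j - (m + 1 - j) / 2 ≤ m + 1)
    have b4 : δ ≤ K / C := by
      rw [le_div_iff₀ C0, δC]; linarith only [εu, u2, q8, q3, R1]
    have b5 : Λ ^ j * K ^ 8 ≤ C := by
      have c1 := gr_choose_ge' (m + 1) j (b := K / 2) (s := R) (by positivity)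
        (by rw [hKc]; linarith only [hjR, RK, R1]) hjR
      rw [← hC] at c1
      refine le_trans ?_ c1
      have c2 : K ^ 8 ≤ (R ^ 8) ^ j := by
        rw [← hK, ← pow_mul, ← pow_mul, mul_comm]
        exact pow_le_pow_right₀ (by linarith only [R1]) (Nat.mul_le_mul_left 8 hj)
      refine (mul_le_mul_of_nonneg_left c2 (by positivity)).trans ?_
      rw [← mul_pow]
      refine pow_le_pow_left₀ (by positivity) ?_ _
      rw [div_div, le_div_iff₀ (by positivity)]
      refine le_trans ?_ ΛK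
      rw [mul_assoc, show R ^ 10 = R ^ 8 * (R * R) by ring]
      gcongr
      linarith only [R1]
    have b6 : Λ ^ j / C ≤ 1 / K ^ 8 := by
      rw [div_le_div_iff₀ C0 (by positivity), one_mul]; exact b5
    have b7 : 1 ≤ K ^ 2 := one_le_pow₀ (by linarith only [RK, R1])
    calc _ ≤ K * (K / C) * (Λ ^ j * 81 * (3 * K ^ 2)) := by
          rw [← mul_assoc (Real.exp _)]
          gcongr
          linarith only [b7]
      _ = 243 * K ^ 4 * (Λ ^ j / C) := by ring
      _ ≤ 243 * K ^ 4 * (1 / K ^ 8) := by gcongr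
      _ = 243 / K ^ 4 := by field_simp
      _ < (ε / 16 / 4) ^ 2 := by
          rw [div_lt_iff₀ (by positivity)]
          have c2 : K ^ 2 ≤ K ^ 4 := pow_le_pow_right₀ (by linarith only [RK, R1]) (by norm_num)
          have c3 : 100000 ^ 2 ≤ (ε * K) ^ 2 := pow_le_pow_left₀ (by norm_num) Kε 2
          linarith only [mul_le_mul_of_nonneg_left c2 (sq_nonneg ε), c3]
      _ ≤ _ := by gcongr

end Pool.Agent.P.MP_7badbe_co
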