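import Pool.Agent.P.MP_7badbe_co.Gr.F

set_option autoImplicit false

open Finset Filter Topology
open scoped BigOperators

namespace Pool.Agent.P.MP_7badbe_co

lemma smallG (j : ℕ) (hj : 1 ≤ j) {ε : ℝ} (hε : 0 < ε) (hε1 : ε ≤ 1 / 2) :
    ∀ᶠ k : ℕ in atTop, ∃ p : ℝ,
      Tendsto (fun n : ℕ => (exF k (k - j) n : ℝ) / n.choose k) atTop (𝓝 p) ∧
      (1 - ε) * (2 * j - 1) * Real.log k / k.choose j ≤ 1 - p ∧
      1 - p ≤ (1 + ε) * (2 * j - 1) * Real.log k / k.choose j := by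
  obtain ⟨k₀, hk₀⟩ := sharp j hj (ε / 2) (by positivity)
  have h1 : Tendsto (fun n : ℕ => (n.choose j : ℝ) / ((n : ℝ) ^ j / j.factorial)) atTop (𝓝 1) :=
    (Asymptotics.isEquivalent_iff_tendsto_one (by
      filter_upwards [eventually_gt_atTop 0] with n hn
      positivity)).1 (isEquivalent_choose j)
  filter_upwards [eventually_ge_atTop k₀, eventually_ge_atTop j,
    h1.eventually (lt_mem_nhds (show 1 - ε / 2 < 1 by linarith))] with k hk hkj h2
  obtain ⟨p, hp, h3, h4⟩ := hk₀ k hk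
  have j1 : (1 : ℝ) ≤ j := by exact_mod_cast hj
  have k1 : (1 : ℝ) ≤ k := by exact_mod_cast hj.trans hkj
  have x0 := Real.log_nonneg k1
  have f1 : (1 : ℝ) ≤ j.factorial := by exact_mod_cast j.factorial_pos
  have C0 : (0 : ℝ) < k.choose j := by exact_mod_cast Nat.choose_pos hkj
  have P0 : (0 : ℝ) < (k : ℝ) ^ j := by positivity
  have h5 : (k.choose j : ℝ) * j.factorial ≤ (k : ℝ) ^ j := by
    rw [← le_div_iff₀ (by positivity)]; exact Nat.choose_le_pow_div j k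
  rw [lt_div_iff₀ (by positivity), ← mul_div_assoc, div_lt_iff₀ (by positivity)] at h2
  obtain ⟨s, hs⟩ : ∃ s : ℝ, s = 2 * j - 1 := ⟨_, rfl⟩
  rw [← hs] at h3 h4 ⊢
  have s1 : 1 ≤ s := by linarith
  have sf : 1 ≤ s * j.factorial := one_le_mul_of_one_le_of_one_le s1 f1
  refine ⟨p, hp, le_trans ?_ h3, h4.trans ?_⟩
  · rw [mul_div_right_comm, mul_div_right_comm _ (Real.log k)]
    refine mul_le_mul_of_nonneg_right ?_ x0
    rw [div_le_div_iff₀ C0 P0]
    have a1 := mul_le_mul_of_nonneg_right (show (1 - ε / 2) * (s * j.factorial)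
      ≤ s * j.factorial - ε / 2 by nlinarith) C0.le
    have a2 := mul_le_mul_of_nonneg_left h2.le
      (show 0 ≤ (1 - ε / 2) * s from mul_nonneg (by linarith) (by linarith))
    have a3 := mul_le_mul_of_nonneg_right (show 1 - ε ≤ (1 - ε / 2) ^ 2 by nlinarith)
      (show 0 ≤ s * (k : ℝ) ^ j by positivity)
    linarith
  · rw [mul_div_right_comm, mul_div_right_comm _ (Real.log k)]
    refine mul_le_mul_of_nonneg_right ?_ x0
    rw [div_le_div_iff₀ P0 C0]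
    have a1 := mul_le_mul_of_nonneg_right (show s * j.factorial + ε / 2
      ≤ (1 + ε) * (s * j.factorial) by nlinarith) C0.le
    have a2 := mul_le_mul_of_nonneg_left h5 (show 0 ≤ (1 + ε) * s by positivity)
    linarith

theorem sharpG (ε : ℝ) (hε : 0 < ε) (hε1 : ε ≤ 1 / 2) : ∃ k₀ : ℕ, ∀ k ≥ k₀, ∀ j : ℕ, 1 ≤ j →
    (j : ℝ) ≤ (k : ℝ) ^ (ε / 21) → ∃ p : ℝ,
      Tendsto (fun n : ℕ => (exF k (k - j) n : ℝ) / n.choose k) atTop (𝓝 p) ∧
      (1 - ε) * (2 * j - 1) * Real.log k / k.choose j ≤ 1 - p ∧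
      1 - p ≤ (1 + ε) * (2 * j - 1) * Real.log k / k.choose j := by
  obtain ⟨N, hN⟩ : ∃ N, N = ⌈20 / ε⌉₊ := ⟨_, rfl⟩
  have N1 : 20 ≤ N * ε := by rw [← div_le_iff₀ hε, hN]; exact Nat.le_ceil _
  have N2 : N * ε ≤ 21 := by
    have := Nat.ceil_lt_add_one (show 0 ≤ 20 / ε by positivity)
    rw [← hN, ← sub_lt_iff_lt_add, lt_div_iff₀ hε] at this
    linarith
  have N0 : (0 : ℝ) < N := (mul_pos_iff_of_pos_right hε).1 (by linarith)
  have h1 : Tendsto (fun k : ℕ => (k : ℝ) ^ (N : ℝ)⁻¹) atTop atTop :=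
    (tendsto_rpow_atTop (by positivity)).comp tendsto_natCast_atTop_atTop
  have h2 := (eventually_all_finset (range N)).2 fun j _ =>
    (show ∀ᶠ k : ℕ in atTop, 1 ≤ j → _ from if hj : 1 ≤ j then
      (smallG j hj hε hε1).mono fun _ h _ => h else Eventually.of_forall fun _ h => absurd h hj)
  refine eventually_atTop.1 ?_
  filter_upwards [h2, eventually_ge_atTop 1, h1.eventually_ge_atTop (128 * Real.exp 50 * N),
    h1.eventually_ge_atTop (4 ^ (8 * N ^ 2)), h1.eventually_ge_atTop (72 * (N : ℝ) ^ 2),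
    h1.eventually_ge_atTop (6528 * (N : ℝ))] with k h3 hk r1 r2 r3 r4 j hj hjk
  rcases Nat.lt_or_ge j N with hjN | hjN
  · exact h3 j (mem_range.2 hjN) hj
  obtain ⟨m, rfl⟩ : ∃ m, k = m + 1 := ⟨k - 1, by omega⟩
  have k1 : (1 : ℝ) ≤ ((m + 1 : ℕ) : ℝ) := by exact_mod_cast hk
  have hK : (((m + 1 : ℕ) : ℝ) ^ (N : ℝ)⁻¹) ^ N = (m : ℝ) + 1 := by
    rw [Real.rpow_inv_natCast_pow (by positivity) (by exact_mod_cast N0.ne')]
    push_cast
    rfl
  have hjR : (j : ℝ) ≤ ((m + 1 : ℕ) : ℝ) ^ (N : ℝ)⁻¹ := by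
    refine hjk.trans (Real.rpow_le_rpow_of_exponent_le k1 ?_)
    rw [inv_eq_one_div, div_le_div_iff₀ (by norm_num) N0]
    linarith
  generalize ((m + 1 : ℕ) : ℝ) ^ (N : ℝ)⁻¹ = R at r1 r2 r3 r4 hK hjR
  have j1 : (1 : ℝ) ≤ j := by exact_mod_cast hj
  have N40 : (40 : ℝ) ≤ N := by nlinarith
  have jm : j ≤ m := by
    have a1 : R ^ 2 ≤ (m : ℝ) + 1 := hK ▸ pow_le_pow_right₀ (by linarith)
      (by exact_mod_cast (show (2 : ℝ) ≤ N by linarith))
    have a2 : (j : ℝ) < ((m + 1 : ℕ) : ℝ) := by push_cast; nlinarith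
    have : j < m + 1 := by exact_mod_cast a2
    omega
  obtain ⟨p, hp⟩ := exists_limit (m := m) (i := m + 1 - j) (by omega)
  refine ⟨p, hp, ?_, ?_⟩
  · refine le_trans ?_ (lower_transfer (by omega) (by omega) hp fun n g hg =>
      (masterG hj (by omega) (parG_main hε hε1 N1 hK r1 r2 r3 hjN hjR) g hg).le)
    push_cast at k1 ⊢
    exact div_le_div_of_nonneg_right (mul_le_mul_of_nonneg_right (by nlinarith)
      (Real.log_nonneg k1)) (Nat.cast_nonneg _)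
  · push_cast
    exact upperG hε hε1 N1 hK r4 hjN hjR hp

end Pool.Agent.P.MP_7badbe_co
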